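import Mathlib

/-!
Bit masks and lists of down-closed sets.
-/

namespace Pool.Agent.Helper875.MonoA

/-- `sb D E` tests that the bits of `D` are contained in the bits of `E`. -/
def sb (D E : ℕ) : Bool := Nat.beq (Nat.land D E) D

theorem sb_iff (D E : ℕ) :
    sb D E = true ↔ ∀ i, D.testBit i = true → E.testBit i = true := by
  unfold sb
  rw [Nat.beq_eq]
  change (D &&& E) = D ↔ _
  constructor
  · intro h i hi
    have : (D &&& E).testBit i = D.testBit i := by rw [h]
    rw [Nat.testBit_land, hi] at this
    simpa using this
  · intro h
    apply Nat.eq_of_testBit_eq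
    intro i
    rw [Nat.testBit_land]
    cases hd : D.testBit i
    · simp
    · simp [h i hd]

theorem sb_refl (D : ℕ) : sb D D = true := by
  rw [sb_iff]; exact fun _ h => h

theorem sb_trans {A B C : ℕ} (h1 : sb A B = true) (h2 : sb B C = true) : sb A C = true := by
  rw [sb_iff] at *
  exact fun i h => h2 i (h1 i h)

/-- adjoin a new point `k` above the set coded by `D` -/
def ext (J : List ℕ) (D k : ℕ) : List ℕ := J ++ (J.filter (fun E => sb D E)).map (fun E => E + 2 ^ k)

theorem testBit_add_two_pow {m k i : ℕ} (hm : m < 2 ^ k) :
    (m + 2 ^ k).testBit i = (decide (i = k) || m.testBit i) := by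
  have h := Nat.testBit_two_pow_mul_add 1 hm i
  rw [mul_one, add_comm] at h
  rw [h]
  rcases lt_trichotomy i k with hik | hik | hik
  · simp [hik, hik.ne]
  · subst hik
    simp
  · have h2 : ¬ i < k := by omega
    have h3 : i ≠ k := by omega
    have h4 : m.testBit i = false := by
      apply Nat.testBit_lt_two_pow
      exact lt_of_lt_of_le hm (Nat.pow_le_pow_right (by norm_num) hik.le)
    have h5 : Nat.testBit 1 (i - k) = false := by
      apply Nat.testBit_lt_two_pow
      have : 1 ≤ i - k := by omega
      calc 1 < 2 ^ 1 := by norm_num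
        _ ≤ 2 ^ (i - k) := Nat.pow_le_pow_right (by norm_num) this
    simp [h2, h3, h4, h5]

/-- `Inv R k J`: `J` lists without repetition the codes of all subsets of `{0,…,k-1}` that
are closed downwards for the relation `R`. -/
structure Inv (R : ℕ → ℕ → Prop) (k : ℕ) (J : List ℕ) : Prop where
  nodup : J.Nodup
  mem : ∀ m, m ∈ J ↔ (m < 2 ^ k ∧ ∀ i, m.testBit i = true → ∀ j, R j i → m.testBit j = true)

theorem inv_zero (R : ℕ → ℕ → Prop) : Inv R 0 [0] := by
  refine ⟨by simp, ?_⟩
  intro m
  constructor
  · intro h
    simp at h
    subst h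
    simp
  · rintro ⟨h, -⟩
    simp at h
    simp [h]

theorem inv_succ {R : ℕ → ℕ → Prop} (hR : ∀ j i, R j i → j < i) {k : ℕ} {J : List ℕ}
    (h : Inv R k J) {D : ℕ} (hD : ∀ j, D.testBit j = true ↔ R j k) : Inv R (k + 1) (ext J D k) := by
  have hlt : ∀ m ∈ J, m < 2 ^ k := fun m hm => ((h.mem m).1 hm).1
  refine ⟨?_, ?_⟩
  · unfold ext
    rw [List.nodup_append]
    refine ⟨h.nodup, ?_, ?_⟩
    · apply List.Nodup.map
      · intro a b hab
        simpa using hab
      · exact h.nodup.filter _
    · intro a ha b hb hab
      subst hab
      rw [List.mem_map] at hb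
      obtain ⟨c, -, hc⟩ := hb
      have := hlt _ ha
      omega
  · intro m
    unfold ext
    rw [List.mem_append, List.mem_map]
    constructor
    · rintro (hm | ⟨m', hm', rfl⟩)
      · obtain ⟨h1, h2⟩ := (h.mem m).1 hm
        refine ⟨lt_of_lt_of_le h1 (Nat.pow_le_pow_right (by norm_num) (Nat.le_succ k)), h2⟩
      · rw [List.mem_filter] at hm'
        obtain ⟨h1, h2⟩ := (h.mem m').1 hm'.1
        have h3 := (sb_iff _ _).1 hm'.2
        refine ⟨by rw [pow_succ]; omega, ?_⟩
        intro i hi j hj
        rw [testBit_add_two_pow h1] at hi ⊢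
        by_cases hik : i = k
        · subst hik
          have := h3 j ((hD j).2 hj)
          simp [this]
        · simp [hik] at hi
          have := h2 i hi j hj
          simp [this]
    · rintro ⟨h1, h2⟩
      by_cases hk : m.testBit k = true
      · right
        have h4 : m = m % 2 ^ k + 2 ^ k := by
          apply Nat.eq_of_testBit_eq
          intro i
          rw [testBit_add_two_pow (Nat.mod_lt _ (by positivity)), Nat.testBit_mod_two_pow]
          rcases lt_trichotomy i k with hik | hik | hik
          · simp [hik, hik.ne]
          · subst hik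
            simp [hk]
          · have : m.testBit i = false := by
              apply Nat.testBit_lt_two_pow
              exact lt_of_lt_of_le h1 (Nat.pow_le_pow_right (by norm_num) hik)
            simp [this]
            omega
        refine ⟨m % 2 ^ k, ?_, h4.symm⟩
        rw [List.mem_filter]
        have h5 : m % 2 ^ k < 2 ^ k := Nat.mod_lt _ (by positivity)
        refine ⟨(h.mem _).2 ⟨h5, ?_⟩, ?_⟩
        · intro i hi j hj
          rw [Nat.testBit_mod_two_pow] at hi ⊢
          simp at hi ⊢
          have := hR j i hj
          exact ⟨by omega, h2 i hi.2 j hj⟩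
        · rw [sb_iff]
          intro i hi
          have h6 := (hD i).1 hi
          have h7 := hR _ _ h6
          rw [Nat.testBit_mod_two_pow]
          simp [h7, h2 k hk i h6]
      · left
        rw [h.mem]
        have hk' : m.testBit k = false := by simpa using hk
        refine ⟨?_, h2⟩
        by_contra hcon
        have : m.testBit k = true := by
          rw [Nat.testBit_eq_decide_div_mod_eq]
          have h8 : m / 2 ^ k = 1 := by
            apply Nat.div_eq_of_lt_le
            · omega
            · rw [pow_succ] at h1; omega
          simp [h8]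
        simp [this] at hk'

end Pool.Agent.Helper875.MonoA
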