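import Pool.Agent.Helper875.MonoA

/-!
Numbers of comparable pairs and triples in a list of masks, and how they change under `ext`.
-/

namespace Pool.Agent.Helper875.MonoB

open Pool.Agent.Helper875.MonoA

/-- number of members of `J` contained in `B` -/
def dn (J : List ℕ) (B : ℕ) : ℕ := J.countP (fun A => sb A B)
/-- number of members of `J` containing `B` -/
def up (J : List ℕ) (B : ℕ) : ℕ := J.countP (fun C => sb B C)
/-- number of pairs `A ⊆ B` in `J` -/
def z2 (J : List ℕ) : ℕ := (J.map (dn J)).sum
/-- number of triples `A ⊆ B ⊆ C` in `J` -/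
def z3 (J : List ℕ) : ℕ := (J.map (fun B => dn J B * up J B)).sum

theorem sb_add_left {p A B : ℕ} {k : ℕ} (hp : p = 2 ^ k) (hA : A < p) (hB : B < p) :
    sb (A + p) B = false := by
  subst hp
  by_contra h
  have h' : sb (A + 2 ^ k) B = true := by simpa using h
  rw [sb_iff] at h'
  have h1 := h' k (by rw [testBit_add_two_pow hA]; simp)
  rw [Nat.testBit_lt_two_pow hB] at h1
  simp at h1

theorem sb_add_right {p A B : ℕ} {k : ℕ} (hp : p = 2 ^ k) (hA : A < p) (hB : B < p) :
    sb A (B + p) = sb A B := by
  subst hp
  rw [Bool.eq_iff_iff, sb_iff, sb_iff]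
  refine forall_congr' fun i => ?_
  refine imp_congr_right fun hi => ?_
  rw [testBit_add_two_pow hB]
  have : i ≠ k := by
    rintro rfl
    rw [Nat.testBit_lt_two_pow hA] at hi
    simp at hi
  simp [this]

theorem sb_add_both {p A B : ℕ} {k : ℕ} (hp : p = 2 ^ k) (hA : A < p) (hB : B < p) :
    sb (A + p) (B + p) = sb A B := by
  subst hp
  rw [Bool.eq_iff_iff, sb_iff, sb_iff]
  constructor
  · intro h i hi
    have h1 := h i (by rw [testBit_add_two_pow hA]; simp [hi])
    rw [testBit_add_two_pow hB] at h1
    have : i ≠ k := by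
      rintro rfl
      rw [Nat.testBit_lt_two_pow hA] at hi
      simp at hi
    simpa [this] using h1
  · intro h i hi
    rw [testBit_add_two_pow hA] at hi
    rw [testBit_add_two_pow hB]
    by_cases hik : i = k
    · simp [hik]
    · simp [hik] at hi ⊢
      exact h i hi

section
variable {J : List ℕ} {k : ℕ} (hJ : ∀ m ∈ J, m < 2 ^ k) (D : ℕ)
include hJ

theorem dn_ext_old {B : ℕ} (hB : B < 2 ^ k) : dn (ext J D k) B = dn J B := by
  unfold dn ext
  rw [List.countP_append, List.countP_map]
  have : (J.filter (fun E => sb D E)).countP ((fun A => sb A B) ∘ fun E => E + 2 ^ k) = 0 := by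
    rw [List.countP_eq_zero]
    intro a ha
    rw [List.mem_filter] at ha
    simp only [Function.comp]
    rw [sb_add_left rfl (hJ a ha.1) hB]
    simp
  rw [this, add_zero]

theorem dn_ext_new {B : ℕ} (hB : B < 2 ^ k) :
    dn (ext J D k) (B + 2 ^ k) = dn J B + (J.filter (fun E => sb D E)).countP (fun A => sb A B) := by
  unfold dn ext
  rw [List.countP_append, List.countP_map]
  congr 1
  · apply List.countP_congr
    intro a ha
    rw [sb_add_right rfl (hJ a ha) hB]
  · apply List.countP_congr
    intro a ha
    rw [List.mem_filter] at ha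
    simp only [Function.comp]
    rw [sb_add_both rfl (hJ a ha.1) hB]

theorem up_ext_old {B : ℕ} (hB : B < 2 ^ k) :
    up (ext J D k) B = up J B + (J.filter (fun E => sb D E)).countP (fun C => sb B C) := by
  unfold up ext
  rw [List.countP_append, List.countP_map]
  congr 1
  apply List.countP_congr
  intro a ha
  rw [List.mem_filter] at ha
  simp only [Function.comp]
  rw [sb_add_right rfl hB (hJ a ha.1)]

theorem up_ext_new {B : ℕ} (hB : B < 2 ^ k) (hDB : sb D B = true) :
    up (ext J D k) (B + 2 ^ k) = up J B := by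
  unfold up ext
  rw [List.countP_append, List.countP_map]
  have h0 : J.countP (fun C => sb (B + 2 ^ k) C) = 0 := by
    rw [List.countP_eq_zero]
    intro a ha
    rw [sb_add_left rfl hB (hJ a ha)]
    simp
  rw [h0, zero_add, List.countP_filter]
  apply List.countP_congr
  intro a ha
  simp only [Function.comp]
  rw [sb_add_both rfl hB (hJ a ha)]
  constructor
  · intro h
    simp only [Bool.and_eq_true] at h
    exact h.1
  · intro h
    simp only [Bool.and_eq_true]
    exact ⟨h, sb_trans hDB h⟩

end

theorem z2_ext {J : List ℕ} {k : ℕ} (hJ : ∀ m ∈ J, m < 2 ^ k) (D : ℕ) :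
    z2 (ext J D k) = z2 J + ((J.filter (fun E => sb D E)).map
      (fun B => dn J B + (J.filter (fun E => sb D E)).countP (fun A => sb A B))).sum := by
  have h : z2 (ext J D k) = (J.map (fun B => dn (ext J D k) B)).sum +
      ((J.filter (fun E => sb D E)).map (fun B => dn (ext J D k) (B + 2 ^ k))).sum := by
    unfold z2
    conv_lhs => rw [show ext J D k = J ++ (J.filter (fun E => sb D E)).map (fun E => E + 2 ^ k) from rfl]
    rw [List.map_append, List.sum_append, List.map_map]
    rfl
  rw [h]
  congr 1
  · unfold z2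
    congr 1
    apply List.map_congr_left
    intro a ha
    exact dn_ext_old hJ D (hJ a ha)
  · congr 1
    apply List.map_congr_left
    intro a ha
    rw [List.mem_filter] at ha
    exact dn_ext_new hJ D (hJ a ha.1)

theorem z3_ext {J : List ℕ} {k : ℕ} (hJ : ∀ m ∈ J, m < 2 ^ k) (D : ℕ) :
    z3 (ext J D k) = (J.map (fun B => dn J B *
      (up J B + (J.filter (fun E => sb D E)).countP (fun C => sb B C)))).sum +
      ((J.filter (fun E => sb D E)).map
      (fun B => (dn J B + (J.filter (fun E => sb D E)).countP (fun A => sb A B)) * up J B)).sum := by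
  have h : z3 (ext J D k) = (J.map (fun B => dn (ext J D k) B * up (ext J D k) B)).sum +
      ((J.filter (fun E => sb D E)).map (fun B => dn (ext J D k) (B + 2 ^ k) *
        up (ext J D k) (B + 2 ^ k))).sum := by
    unfold z3
    conv_lhs => rw [show ext J D k = J ++ (J.filter (fun E => sb D E)).map (fun E => E + 2 ^ k) from rfl]
    rw [List.map_append, List.sum_append, List.map_map]
    rfl
  rw [h]
  congr 1
  · congr 1
    apply List.map_congr_left
    intro a ha
    rw [dn_ext_old hJ D (hJ a ha), up_ext_old hJ D (hJ a ha)]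
  · congr 1
    apply List.map_congr_left
    intro a ha
    rw [List.mem_filter] at ha
    rw [dn_ext_new hJ D (hJ a ha.1), up_ext_new hJ D (hJ a ha.1) ha.2]

/-- growth of the number of triples -/
theorem z3_ext_ge {J : List ℕ} {k : ℕ} (hJ : ∀ m ∈ J, m < 2 ^ k) (D : ℕ) {M : ℕ} (hM : M ∈ J)
    (hJM : ∀ m ∈ J, sb m M = true) (hDM : sb D M = true) :
    z3 J + z2 J + J.length + 1 ≤ z3 (ext J D k) := by
  rw [z3_ext hJ D]
  have hMT : M ∈ J.filter (fun E => sb D E) := by
    rw [List.mem_filter]; exact ⟨hM, hDM⟩
  have h1 : z3 J + z2 J ≤ (J.map (fun B => dn J B *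
      (up J B + (J.filter (fun E => sb D E)).countP (fun C => sb B C)))).sum := by
    have : z3 J + z2 J = (J.map (fun B => dn J B * (up J B + 1))).sum := by
      unfold z3 z2
      rw [← List.sum_map_add]
      congr 1
    rw [this]
    apply List.sum_le_sum
    intro B hB
    apply Nat.mul_le_mul_left
    apply Nat.add_le_add_left
    rw [Nat.one_le_iff_ne_zero, ← Nat.pos_iff_ne_zero, List.countP_pos_iff]
    exact ⟨M, hMT, hJM B hB⟩
  have h2 : J.length + 1 ≤ ((J.filter (fun E => sb D E)).map
      (fun B => (dn J B + (J.filter (fun E => sb D E)).countP (fun A => sb A B)) * up J B)).sum := by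
    have h3 : (fun B => (dn J B + (J.filter (fun E => sb D E)).countP (fun A => sb A B)) * up J B) M ≤
      ((J.filter (fun E => sb D E)).map
      (fun B => (dn J B + (J.filter (fun E => sb D E)).countP (fun A => sb A B)) * up J B)).sum :=
      List.single_le_sum (by simp) _ (List.mem_map_of_mem hMT)
    refine le_trans ?_ h3
    have h4 : dn J M = J.length := by
      unfold dn
      rw [List.countP_eq_length]
      exact hJM
    have h5 : 1 ≤ (J.filter (fun E => sb D E)).countP (fun A => sb A M) := by
      rw [Nat.one_le_iff_ne_zero, ← Nat.pos_iff_ne_zero, List.countP_pos_iff]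
      exact ⟨M, hMT, sb_refl M⟩
    have h6 : 1 ≤ up J M := by
      unfold up
      rw [Nat.one_le_iff_ne_zero, ← Nat.pos_iff_ne_zero, List.countP_pos_iff]
      exact ⟨M, hM, sb_refl M⟩
    have h7 : (dn J M + (J.filter (fun E => sb D E)).countP (fun A => sb A M)) * 1 ≤
        (dn J M + (J.filter (fun E => sb D E)).countP (fun A => sb A M)) * up J M :=
      Nat.mul_le_mul_left _ h6
    simp only at h7 ⊢
    omega
  omega

end Pool.Agent.Helper875.MonoB
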