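import Pool.Agent.Helper875.MonoB

/-!
An exhaustive search over lists of down-closed sets, arranged for evaluation, and its soundness.
-/

namespace Pool.Agent.Helper875.MonoC

open Pool.Agent.Helper875.MonoA Pool.Agent.Helper875.MonoB

/-- lists of records: mask, number of subsets, number of supersets -/
inductive RL : Type
  | nil : RL
  | cons : ℕ → ℕ → ℕ → RL → RL

noncomputable def force (x : ℕ) (f : ℕ → Bool) : Bool :=
  @Nat.rec (fun _ => Bool) (f 0) (fun m _ => f m) (Nat.succ x)

theorem force_eq (x : ℕ) (f : ℕ → Bool) : force x f = f x := rfl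

noncomputable def cu (E : ℕ) (T : RL) : ℕ :=
  @RL.rec (fun _ => ℕ) 0
    (fun e _ _ _ ih => @Bool.rec (fun _ => ℕ) ih (Nat.succ ih) (Nat.beq (Nat.land E e) E)) T

noncomputable def cd (E : ℕ) (T : RL) : ℕ :=
  @RL.rec (fun _ => ℕ) 0
    (fun e _ _ _ ih => @Bool.rec (fun _ => ℕ) ih (Nat.succ ih) (Nat.beq (Nat.land e E) e)) T

noncomputable def filt (D : ℕ) (J : RL) : (RL → Bool) → Bool :=
  @RL.rec (fun _ => (RL → Bool) → Bool) (fun k => k RL.nil)
    (fun e d u _ ih => @Bool.rec (fun _ => (RL → Bool) → Bool) ih
      (fun k => ih (fun r => k (RL.cons e d u r))) (Nat.beq (Nat.land D e) D)) J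

noncomputable def mapT (p : ℕ) (T0 T : RL) : (RL → Bool) → Bool :=
  @RL.rec (fun _ => (RL → Bool) → Bool) (fun k => k RL.nil)
    (fun e d u _ ih => fun k => ih (fun r => force (Nat.add d (cd e T0))
      (fun d' => force (Nat.add e p) (fun e' => k (RL.cons e' d' u r))))) T

noncomputable def mapJ (T0 base J : RL) : (RL → Bool) → Bool :=
  @RL.rec (fun _ => (RL → Bool) → Bool) (fun k => k base)
    (fun e d u _ ih => fun k => ih (fun r => force (Nat.add u (cu e T0))
      (fun u' => k (RL.cons e d u' r)))) J

noncomputable def s3 (J : RL) : ℕ :=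
  @RL.rec (fun _ => ℕ) 0 (fun _ d u _ ih => Nat.add ih (Nat.mul d u)) J

/-- sum of the `d`-entries plus length -/
noncomputable def s2 (J : RL) : ℕ :=
  @RL.rec (fun _ => ℕ) 0 (fun _ d _ _ ih => Nat.add ih (Nat.succ d)) J

/-- the search; `bad` is a bit mask of forbidden values, `leaf` is used when the fuel is out -/
noncomputable def chk (bad lim : ℕ) (leaf : ℕ → ℕ → RL → Bool) (fuel : ℕ) : ℕ → ℕ → RL → Bool :=
  @Nat.rec (fun _ => ℕ → ℕ → RL → Bool) leaf
    (fun _ ih p last J =>
      @RL.rec (fun _ => Bool) true
        (fun e d _ _ ihl =>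
          @Bool.rec (fun _ => Bool) ihl
            (@Bool.rec (fun _ => Bool) false ihl
              (filt e J (fun T => mapT p T T (fun B => mapJ T B J (fun J' =>
                force (s3 J') (fun v =>
                  @Bool.rec (fun _ => Bool) true
                    (@Bool.rec (fun _ => Bool) false
                      (@Bool.rec (fun _ => Bool) true
                        (force (Nat.add p p) (fun p' => ih p' d J'))
                        (Nat.ble (Nat.succ (Nat.add v (s2 J'))) lim))
                      (Nat.beq (Nat.mod (Nat.shiftRight bad v) 2) 0))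
                    (Nat.ble v lim)))))))
            (Nat.ble last d)) J) fuel

/-- records of the masks in `l` relative to `J` -/
def ofJ (J : List ℕ) : List ℕ → RL
  | [] => RL.nil
  | e :: l => RL.cons e (dn J e) (up J e) (ofJ J l)

theorem cu_ofJ (J : List ℕ) (E : ℕ) (l : List ℕ) :
    cu E (ofJ J l) = l.countP (fun C => sb E C) := by
  induction l with
  | nil => rfl
  | cons a l ih =>
    rw [List.countP_cons]
    change @Bool.rec (fun _ => ℕ) (cu E (ofJ J l)) (Nat.succ (cu E (ofJ J l))) (sb E a) = _
    rw [ih]
    cases sb E a <;> simp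

theorem cd_ofJ (J : List ℕ) (E : ℕ) (l : List ℕ) :
    cd E (ofJ J l) = l.countP (fun A => sb A E) := by
  induction l with
  | nil => rfl
  | cons a l ih =>
    rw [List.countP_cons]
    change @Bool.rec (fun _ => ℕ) (cd E (ofJ J l)) (Nat.succ (cd E (ofJ J l))) (sb a E) = _
    rw [ih]
    cases sb a E <;> simp

theorem filt_ofJ (J : List ℕ) (D : ℕ) (l : List ℕ) (k : RL → Bool) :
    filt D (ofJ J l) k = k (ofJ J (l.filter (fun E => sb D E))) := by
  induction l generalizing k with
  | nil => rfl
  | cons a l ih =>
    change @Bool.rec (fun _ => (RL → Bool) → Bool) (filt D (ofJ J l))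
      (fun k => filt D (ofJ J l) (fun r => k (RL.cons a (dn J a) (up J a) r))) (sb D a) k = _
    cases h : sb D a
    · simp only [List.filter_cons, h]
      exact ih k
    · simp only [List.filter_cons, h]
      exact ih _

theorem mapT_ofJ {J : List ℕ} {k : ℕ} (hJ : ∀ m ∈ J, m < 2 ^ k) (D : ℕ)
    (l : List ℕ) (hl : ∀ m ∈ l, m ∈ J.filter (fun E => sb D E)) (f : RL → Bool) :
    mapT (2 ^ k) (ofJ J (J.filter (fun E => sb D E))) (ofJ J l) f =
      f (ofJ (ext J D k) (l.map (fun E => E + 2 ^ k))) := by
  induction l generalizing f with
  | nil => rfl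
  | cons a l ih =>
    change mapT (2 ^ k) (ofJ J (J.filter (fun E => sb D E))) (ofJ J l)
      (fun r => force (Nat.add (dn J a) (cd a (ofJ J (J.filter (fun E => sb D E)))))
      (fun d' => force (Nat.add a (2 ^ k)) (fun e' => f (RL.cons e' d' (up J a) r)))) = _
    rw [ih (fun m hm => hl m (List.mem_cons_of_mem _ hm))]
    rw [force_eq, force_eq, cd_ofJ]
    have ha := hl a List.mem_cons_self
    rw [List.mem_filter] at ha
    congr 1
    rw [List.map_cons]
    change _ = RL.cons (a + 2 ^ k) (dn (ext J D k) (a + 2 ^ k)) (up (ext J D k) (a + 2 ^ k)) _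
    rw [dn_ext_new hJ D (hJ a ha.1), up_ext_new hJ D (hJ a ha.1) ha.2]
    rfl

theorem mapJ_ofJ {J : List ℕ} {k : ℕ} (hJ : ∀ m ∈ J, m < 2 ^ k) (D : ℕ)
    (l base : List ℕ) (hl : ∀ m ∈ l, m ∈ J) (f : RL → Bool) :
    mapJ (ofJ J (J.filter (fun E => sb D E))) (ofJ (ext J D k) base) (ofJ J l) f =
      f (ofJ (ext J D k) (l ++ base)) := by
  induction l generalizing f with
  | nil => rfl
  | cons a l ih =>
    change mapJ (ofJ J (J.filter (fun E => sb D E))) (ofJ (ext J D k) base) (ofJ J l)
      (fun r => force (Nat.add (up J a) (cu a (ofJ J (J.filter (fun E => sb D E)))))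
      (fun u' => f (RL.cons a (dn J a) u' r))) = _
    rw [ih (fun m hm => hl m (List.mem_cons_of_mem _ hm))]
    rw [force_eq, cu_ofJ]
    have ha := hl a List.mem_cons_self
    congr 1
    rw [List.cons_append]
    change _ = RL.cons a (dn (ext J D k) a) (up (ext J D k) a) _
    rw [dn_ext_old hJ D (hJ a ha), up_ext_old hJ D (hJ a ha)]
    rfl

theorem s3_ofJ (J l : List ℕ) : s3 (ofJ J l) = (l.map (fun B => dn J B * up J B)).sum := by
  induction l with
  | nil => rfl
  | cons a l ih =>
    change Nat.add (s3 (ofJ J l)) (Nat.mul (dn J a) (up J a)) = _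
    rw [ih, List.map_cons, List.sum_cons]
    exact add_comm _ _

theorem s2_ofJ (J l : List ℕ) : s2 (ofJ J l) = (l.map (dn J)).sum + l.length := by
  induction l with
  | nil => rfl
  | cons a l ih =>
    change Nat.add (s2 (ofJ J l)) (Nat.succ (dn J a)) = _
    rw [ih, List.map_cons, List.sum_cons, List.length_cons]
    change (l.map (dn J)).sum + l.length + (dn J a + 1) = _
    ring

/-- what one successful step of the search says -/
theorem chk_succ {bad lim : ℕ} {leaf : ℕ → ℕ → RL → Bool} {fuel k last : ℕ} {J : List ℕ}
    (hJ : ∀ m ∈ J, m < 2 ^ k)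
    (h : chk bad lim leaf (fuel + 1) (2 ^ k) last (ofJ J J) = true) {D : ℕ} (hD : D ∈ J)
    (hlast : last ≤ dn J D) (hv : z3 (ext J D k) ≤ lim) :
    (bad >>> (z3 (ext J D k))) % 2 = 0 ∧
    (z3 (ext J D k) + z2 (ext J D k) + (ext J D k).length + 1 ≤ lim →
      chk bad lim leaf fuel (2 ^ (k + 1)) (dn J D) (ofJ (ext J D k) (ext J D k)) = true) := by
  -- unfold one layer
  have key : ∀ l : List ℕ, (∀ m ∈ l, m ∈ J) →
      (@RL.rec (fun _ => Bool) true
        (fun e d _ _ ihl =>
          @Bool.rec (fun _ => Bool) ihl
            (@Bool.rec (fun _ => Bool) false ihl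
              (filt e (ofJ J J) (fun T => mapT (2 ^ k) T T (fun B => mapJ T B (ofJ J J) (fun J' =>
                force (s3 J') (fun v =>
                  @Bool.rec (fun _ => Bool) true
                    (@Bool.rec (fun _ => Bool) false
                      (@Bool.rec (fun _ => Bool) true
                        (force (Nat.add (2 ^ k) (2 ^ k)) (fun p' => chk bad lim leaf fuel p' d J'))
                        (Nat.ble (Nat.succ (Nat.add v (s2 J'))) lim))
                      (Nat.beq (Nat.mod (Nat.shiftRight bad v) 2) 0))
                    (Nat.ble v lim)))))))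
            (Nat.ble last d)) (ofJ J l) : Bool) = true → D ∈ l →
      (bad >>> (z3 (ext J D k))) % 2 = 0 ∧
    (z3 (ext J D k) + z2 (ext J D k) + (ext J D k).length + 1 ≤ lim →
      chk bad lim leaf fuel (2 ^ (k + 1)) (dn J D) (ofJ (ext J D k) (ext J D k)) = true) := by
    intro l
    induction l with
    | nil => intro _ _ h; simp at h
    | cons a l ih =>
      intro hl h hDl
      set rest : Bool := (@RL.rec (fun _ => Bool) true
        (fun e d _ _ ihl =>
          @Bool.rec (fun _ => Bool) ihl
            (@Bool.rec (fun _ => Bool) false ihl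
              (filt e (ofJ J J) (fun T => mapT (2 ^ k) T T (fun B => mapJ T B (ofJ J J) (fun J' =>
                force (s3 J') (fun v =>
                  @Bool.rec (fun _ => Bool) true
                    (@Bool.rec (fun _ => Bool) false
                      (@Bool.rec (fun _ => Bool) true
                        (force (Nat.add (2 ^ k) (2 ^ k)) (fun p' => chk bad lim leaf fuel p' d J'))
                        (Nat.ble (Nat.succ (Nat.add v (s2 J'))) lim))
                      (Nat.beq (Nat.mod (Nat.shiftRight bad v) 2) 0))
                    (Nat.ble v lim)))))))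
            (Nat.ble last d)) (ofJ J l) : Bool) with hrest
      have h' : @Bool.rec (fun _ => Bool) rest
            (@Bool.rec (fun _ => Bool) false rest
              (filt a (ofJ J J) (fun T => mapT (2 ^ k) T T (fun B => mapJ T B (ofJ J J) (fun J' =>
                force (s3 J') (fun v =>
                  @Bool.rec (fun _ => Bool) true
                    (@Bool.rec (fun _ => Bool) false
                      (@Bool.rec (fun _ => Bool) true
                        (force (Nat.add (2 ^ k) (2 ^ k)) (fun p' => chk bad lim leaf fuel p' (dn J a) J'))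
                        (Nat.ble (Nat.succ (Nat.add v (s2 J'))) lim))
                      (Nat.beq (Nat.mod (Nat.shiftRight bad v) 2) 0))
                    (Nat.ble v lim)))))))
            (Nat.ble last (dn J a)) = true := h
      have hrest_true : rest = true := by
        cases hb : Nat.ble last (dn J a)
        · rw [hb] at h'
          exact h'
        · rw [hb] at h'
          change @Bool.rec (fun _ => Bool) false rest _ = true at h'
          revert h'
          generalize (filt a (ofJ J J) _) = b
          cases b
          · intro h'; exact absurd h' (by simp)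
          · intro h'; exact h'
      rcases List.mem_cons.1 hDl with rfl | hDl'
      · have hb : Nat.ble last (dn J D) = true := Nat.ble_eq_true_of_le hlast
        rw [hb] at h'
        change @Bool.rec (fun _ => Bool) false rest _ = true at h'
        rw [filt_ofJ, mapT_ofJ hJ D _ (fun m hm => hm), mapJ_ofJ hJ D _ _ (fun m hm => hm)] at h'
        change @Bool.rec (fun _ => Bool) false rest
          (force (s3 (ofJ (ext J D k) (ext J D k))) _) = true at h'
        rw [force_eq, s3_ofJ] at h'
        change @Bool.rec (fun _ => Bool) false rest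
          (@Bool.rec (fun _ => Bool) true
                    (@Bool.rec (fun _ => Bool) false
                      (@Bool.rec (fun _ => Bool) true
                        (force (Nat.add (2 ^ k) (2 ^ k)) (fun p' => chk bad lim leaf fuel p' (dn J D)
                          (ofJ (ext J D k) (ext J D k))))
                        (Nat.ble (Nat.succ (Nat.add (z3 (ext J D k)) (s2 (ofJ (ext J D k) (ext J D k))))) lim))
                      (Nat.beq (Nat.mod (Nat.shiftRight bad (z3 (ext J D k))) 2) 0))
                    (Nat.ble (z3 (ext J D k)) lim)) = true at h'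
        have hb2 : Nat.ble (z3 (ext J D k)) lim = true := Nat.ble_eq_true_of_le hv
        rw [hb2, force_eq, s2_ofJ] at h'
        cases hb3 : Nat.beq (Nat.mod (Nat.shiftRight bad (z3 (ext J D k))) 2) 0
        · rw [hb3] at h'
          exact absurd h' (by simp)
        · rw [hb3] at h'
          refine ⟨Nat.eq_of_beq_eq_true hb3, ?_⟩
          intro hle
          have hb4 : Nat.ble (Nat.succ (Nat.add (z3 (ext J D k))
              (((ext J D k).map (dn (ext J D k))).sum + (ext J D k).length))) lim = true := by
            apply Nat.ble_eq_true_of_le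
            unfold z2 at hle
            change z3 (ext J D k) + (((ext J D k).map (dn (ext J D k))).sum + (ext J D k).length) + 1 ≤ lim
            omega
          rw [hb4] at h'
          have hp : Nat.add (2 ^ k) (2 ^ k) = 2 ^ (k + 1) := by
            change 2 ^ k + 2 ^ k = _
            rw [pow_succ]; ring
          rw [hp] at h'
          change @Bool.rec (fun _ => Bool) false rest
            (chk bad lim leaf fuel (2 ^ (k + 1)) (dn J D) (ofJ (ext J D k) (ext J D k))) = true at h'
          revert h'
          cases chk bad lim leaf fuel (2 ^ (k + 1)) (dn J D) (ofJ (ext J D k) (ext J D k))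
          · intro h'; exact absurd h' (by simp)
          · intro _; rfl
      · exact ih (fun m hm => hl m (List.mem_cons_of_mem _ hm)) hrest_true hDl'
  exact key J (fun m hm => hm) h hD

end Pool.Agent.Helper875.MonoC
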