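import Pool.Agent.Helper875.MonoB

/-!
Order preserving maps of a finite ordered set into short chains, counted through lists of masks.
-/

namespace Pool.Agent.Helper875.MonoD

set_option linter.unusedSectionVars false

open Pool.Agent.Helper875.MonoA Pool.Agent.Helper875.MonoB

theorem card_mem_list {l : List ℕ} (hl : l.Nodup) : Nat.card {m // m ∈ l} = l.length := by
  rw [Nat.card_congr (List.Nodup.getEquiv l hl).symm, Nat.card_fin]

section chains

variable {L : Type*} [Preorder L] [Finite L] {J : List ℕ} (hJ : J.Nodup)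
  (φ : L ≃ {m // m ∈ J}) (hφ : ∀ A B : L, A ≤ B ↔ sb (φ A).1 (φ B).1 = true)

omit [Preorder L] [Finite L] in
include hJ in
theorem card_sub (φ : L ≃ {m // m ∈ J}) (p : ℕ → Bool) :
    Nat.card {A : L // p (φ A).1 = true} = J.countP p := by
  rw [List.countP_eq_length_filter, ← card_mem_list (hJ.filter p)]
  apply Nat.card_congr
  refine ⟨fun A => ⟨(φ A.1).1, ?_⟩, fun m => ⟨φ.symm ⟨m.1, ?_⟩, ?_⟩, ?_, ?_⟩
  · rw [List.mem_filter]; exact ⟨(φ A.1).2, A.2⟩
  · exact (List.mem_filter.1 m.2).1
  · simp only [Equiv.apply_symm_apply]; exact (List.mem_filter.1 m.2).2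
  · intro A; apply Subtype.ext; simp
  · intro m; apply Subtype.ext; simp

include hJ hφ in
theorem card_le (B : L) : Nat.card {A : L // A ≤ B} = dn J (φ B).1 := by
  unfold dn
  rw [← card_sub hJ φ]
  apply Nat.card_congr
  exact Equiv.subtypeEquivRight (fun A => hφ A B)

include hJ hφ in
theorem card_ge (B : L) : Nat.card {C : L // B ≤ C} = up J (φ B).1 := by
  unfold up
  rw [← card_sub hJ φ]
  apply Nat.card_congr
  exact Equiv.subtypeEquivRight (fun C => hφ B C)

omit [Preorder L] [Finite L] in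
theorem sum_equiv_list [Fintype L] (hJ : J.Nodup) (φ : L ≃ {m // m ∈ J}) (f : ℕ → ℕ) :
    ∑ B : L, f (φ B).1 = (J.map f).sum := by
  classical
  rw [← List.sum_toFinset f hJ]
  refine Finset.sum_bij (fun B _ => (φ B).1) ?_ ?_ ?_ ?_
  · intro B _
    rw [List.mem_toFinset]; exact (φ B).2
  · intro B _ C _ h
    exact φ.injective (Subtype.ext h)
  · intro m hm
    rw [List.mem_toFinset] at hm
    exact ⟨φ.symm ⟨m, hm⟩, Finset.mem_univ _, by simp⟩
  · intro B _
    rfl

omit [Preorder L] [Finite L] in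
include hJ φ in
theorem card_one : Nat.card L = J.length := by
  rw [Nat.card_congr φ, card_mem_list hJ]

include hJ hφ in
theorem card_two : Nat.card {p : L × L // p.1 ≤ p.2} = z2 J := by
  classical
  have := Fintype.ofFinite L
  have e : {p : L × L // p.1 ≤ p.2} ≃ (Σ B : L, {A : L // A ≤ B}) :=
    { toFun := fun p => ⟨p.1.2, ⟨p.1.1, p.2⟩⟩
      invFun := fun q => ⟨(q.2.1, q.1), q.2.2⟩
      left_inv := fun p => rfl
      right_inv := fun q => rfl }
  rw [Nat.card_congr e, Nat.card_sigma]
  unfold z2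
  rw [← sum_equiv_list hJ φ]
  exact Finset.sum_congr rfl (fun B _ => card_le hJ φ hφ B)

include hJ hφ in
theorem card_three : Nat.card {p : L × L × L // p.1 ≤ p.2.1 ∧ p.2.1 ≤ p.2.2} = z3 J := by
  classical
  have := Fintype.ofFinite L
  have e : {p : L × L × L // p.1 ≤ p.2.1 ∧ p.2.1 ≤ p.2.2} ≃
      (Σ B : L, {A : L // A ≤ B} × {C : L // B ≤ C}) :=
    { toFun := fun p => ⟨p.1.2.1, ⟨p.1.1, p.2.1⟩, ⟨p.1.2.2, p.2.2⟩⟩
      invFun := fun q => ⟨(q.2.1.1, q.1, q.2.2.1), q.2.1.2, q.2.2.2⟩
      left_inv := fun p => rfl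
      right_inv := fun q => rfl }
  rw [Nat.card_congr e, Nat.card_sigma]
  unfold z3
  rw [← sum_equiv_list hJ φ]
  refine Finset.sum_congr rfl (fun B _ => ?_)
  rw [Nat.card_prod, card_le hJ φ hφ B, card_ge hJ φ hφ B]

end chains

section maps

variable (α : Type*) [PartialOrder α]

/-- monotone maps to the two-element chain are the down-closed sets -/
noncomputable def equiv2 : (α →o Fin 2) ≃ LowerSet α := by
  classical
  exact
  { toFun := fun f => ⟨{x | f x = 0}, by
      intro a b hba ha
      have h := f.monotone hba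
      simp only [Set.mem_ofPred_eq] at ha ⊢
      rw [ha] at h
      exact le_antisymm h (Fin.zero_le _)⟩
    invFun := fun A => ⟨fun x => if x ∈ A then 0 else 1, by
      intro a b hab
      by_cases hb : b ∈ A
      · have ha : a ∈ A := A.lower hab hb
        simp [ha, hb]
      · by_cases ha : a ∈ A <;> simp [ha, hb]⟩
    left_inv := by
      intro f
      ext x
      have key : ∀ v : Fin 2, ∀ (i0 : Decidable (v = 0)), (@ite _ (v = 0) i0 0 1 : Fin 2) = v := by
        intro v i0
        fin_cases v <;> simp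
      exact congrArg Fin.val (key (f x) _)
    right_inv := by
      intro A
      ext x
      change ((if x ∈ A then (0 : Fin 2) else 1) = 0) ↔ x ∈ A
      by_cases hx : x ∈ A <;> simp [hx] }

noncomputable def equiv3 : (α →o Fin 3) ≃ {p : LowerSet α × LowerSet α // p.1 ≤ p.2} := by
  classical
  exact
  { toFun := fun f => ⟨(⟨{x | f x ≤ 0}, fun a b hba ha => le_trans (f.monotone hba) ha⟩,
      ⟨{x | f x ≤ 1}, fun a b hba ha => le_trans (f.monotone hba) ha⟩), by
        intro x hx
        exact le_trans (show f x ≤ 0 from hx) (by decide)⟩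
    invFun := fun p => ⟨fun x => if x ∈ p.1.1 then 0 else if x ∈ p.1.2 then 1 else 2, by
      intro a b hab
      by_cases hb : b ∈ p.1.1
      · have ha : a ∈ p.1.1 := p.1.1.lower hab hb
        simp [ha, hb]
      · by_cases hb2 : b ∈ p.1.2
        · have ha : a ∈ p.1.2 := p.1.2.lower hab hb2
          by_cases ha1 : a ∈ p.1.1 <;> simp [ha, hb, hb2, ha1]
        · simp only [hb, hb2, if_false]
          by_cases ha1 : a ∈ p.1.1 <;> by_cases ha2 : a ∈ p.1.2 <;> simp [ha1, ha2] <;> decide⟩
    left_inv := by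
      intro f
      ext x
      have key : ∀ v : Fin 3, ∀ (i0 : Decidable (v ≤ 0)) (i1 : Decidable (v ≤ 1)),
          (@ite _ (v ≤ 0) i0 0 (@ite _ (v ≤ 1) i1 1 2) : Fin 3) = v := by
        intro v i0 i1
        fin_cases v <;> simp
      exact congrArg Fin.val (key (f x) _ _)
    right_inv := by
      rintro ⟨⟨A, B⟩, hAB⟩
      have hAB' : ∀ x, x ∈ A → x ∈ B := fun x hx => hAB hx
      apply Subtype.ext
      apply Prod.ext
      · ext x
        change ((if x ∈ A then (0 : Fin 3) else if x ∈ B then 1 else 2) ≤ 0) ↔ x ∈ A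
        by_cases hA : x ∈ A <;> by_cases hB : x ∈ B <;> simp [hA, hB] <;> decide
      · ext x
        change ((if x ∈ A then (0 : Fin 3) else if x ∈ B then 1 else 2) ≤ 1) ↔ x ∈ B
        by_cases hA : x ∈ A
        · simp [hA, hAB' x hA]
        · by_cases hB : x ∈ B
          · simp [hA, hB]
          · simp only [hA, hB, if_false]; decide }

noncomputable def equiv4 : (α →o Fin 4) ≃
    {p : LowerSet α × LowerSet α × LowerSet α // p.1 ≤ p.2.1 ∧ p.2.1 ≤ p.2.2} := by
  classical
  exact
  { toFun := fun f => ⟨(⟨{x | f x ≤ 0}, fun a b hba ha => le_trans (f.monotone hba) ha⟩,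
      ⟨{x | f x ≤ 1}, fun a b hba ha => le_trans (f.monotone hba) ha⟩,
      ⟨{x | f x ≤ 2}, fun a b hba ha => le_trans (f.monotone hba) ha⟩),
        ⟨fun x hx => le_trans (show f x ≤ 0 from hx) (by decide),
         fun x hx => le_trans (show f x ≤ 1 from hx) (by decide)⟩⟩
    invFun := fun p => ⟨fun x => if x ∈ p.1.1 then 0 else if x ∈ p.1.2.1 then 1
        else if x ∈ p.1.2.2 then 2 else 3, by
      intro a b hab
      by_cases hb : b ∈ p.1.1
      · have ha : a ∈ p.1.1 := p.1.1.lower hab hb
        simp [ha, hb]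
      · by_cases hb2 : b ∈ p.1.2.1
        · have ha : a ∈ p.1.2.1 := p.1.2.1.lower hab hb2
          by_cases ha1 : a ∈ p.1.1 <;> simp [ha, hb, hb2, ha1]
        · by_cases hb3 : b ∈ p.1.2.2
          · have ha : a ∈ p.1.2.2 := p.1.2.2.lower hab hb3
            simp only [hb, hb2, hb3, if_false, if_true]
            by_cases ha1 : a ∈ p.1.1 <;> by_cases ha2 : a ∈ p.1.2.1 <;>
              simp [ha, ha1, ha2] <;> decide
          · simp only [hb, hb2, hb3, if_false]
            by_cases ha1 : a ∈ p.1.1 <;> by_cases ha2 : a ∈ p.1.2.1 <;>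
              by_cases ha3 : a ∈ p.1.2.2 <;> simp [ha1, ha2, ha3] <;> decide⟩
    left_inv := by
      intro f
      ext x
      have key : ∀ v : Fin 4, ∀ (i0 : Decidable (v ≤ 0)) (i1 : Decidable (v ≤ 1))
          (i2 : Decidable (v ≤ 2)),
          (@ite _ (v ≤ 0) i0 0 (@ite _ (v ≤ 1) i1 1 (@ite _ (v ≤ 2) i2 2 3)) : Fin 4) = v := by
        intro v i0 i1 i2
        fin_cases v <;> simp
      exact congrArg Fin.val (key (f x) _ _ _)
    right_inv := by
      rintro ⟨⟨A, B, C⟩, hAB, hBC⟩
      have hAB' : ∀ x, x ∈ A → x ∈ B := fun x hx => hAB hx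
      have hBC' : ∀ x, x ∈ B → x ∈ C := fun x hx => hBC hx
      apply Subtype.ext
      apply Prod.ext
      · ext x
        change ((if x ∈ A then (0 : Fin 4) else if x ∈ B then 1 else if x ∈ C then 2 else 3) ≤ 0)
          ↔ x ∈ A
        by_cases hA : x ∈ A <;> by_cases hB : x ∈ B <;> by_cases hC : x ∈ C <;>
          simp [hA, hB, hC] <;> decide
      apply Prod.ext
      · ext x
        change ((if x ∈ A then (0 : Fin 4) else if x ∈ B then 1 else if x ∈ C then 2 else 3) ≤ 1)
          ↔ x ∈ B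
        by_cases hA : x ∈ A
        · simp [hA, hAB' x hA]
        · by_cases hB : x ∈ B
          · simp [hA, hB]
          · by_cases hC : x ∈ C <;> simp only [hA, hB, hC, if_false, if_true] <;> decide
      · ext x
        change ((if x ∈ A then (0 : Fin 4) else if x ∈ B then 1 else if x ∈ C then 2 else 3) ≤ 2)
          ↔ x ∈ C
        by_cases hA : x ∈ A
        · simp [hA, hBC' x (hAB' x hA)]
        · by_cases hB : x ∈ B
          · simp only [hA, hB, if_false, if_true, hBC' x hB]; decide
          · by_cases hC : x ∈ C <;> simp only [hA, hB, hC, if_false, if_true] <;> decide }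

end maps

end Pool.Agent.Helper875.MonoD
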