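import Pool.Agent.Helper875.MonoC
import Pool.Agent.Helper875.MonoD

/-!
Finite ordered sets presented by an enumeration, and soundness of the exhaustive search.
-/

namespace Pool.Agent.Helper875.MonoE

set_option linter.unusedSectionVars false

open Pool.Agent.Helper875.MonoA Pool.Agent.Helper875.MonoB Pool.Agent.Helper875.MonoC
  Pool.Agent.Helper875.MonoD

section path

variable {α : Type*} [PartialOrder α] {n : ℕ} (e : Fin n ≃ α)

/-- the strict order transported to indices -/
def R (j i : ℕ) : Prop := ∃ (hj : j < n) (hi : i < n), e ⟨j, hj⟩ < e ⟨i, hi⟩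

open Classical in
/-- code of the set of predecessors of the point number `k` -/
noncomputable def D (k : ℕ) : ℕ := Nat.ofBits (fun j : Fin k => decide (R e j k))

/-- list of the codes of the down-closed subsets of the first `k` points -/
noncomputable def Js : ℕ → List ℕ
  | 0 => [0]
  | k + 1 => ext (Js k) (D e k) k

variable (he : ∀ i j, e i < e j → i < j)
include he

theorem R_lt (j i : ℕ) (h : R e j i) : j < i := by
  obtain ⟨hj, hi, h⟩ := h
  exact he _ _ h

theorem D_testBit (k j : ℕ) : (D e k).testBit j = true ↔ R e j k := by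
  classical
  unfold D
  by_cases hj : j < k
  · rw [Nat.testBit_ofBits_lt _ _ hj]
    simp
  · rw [Nat.testBit_ofBits_ge _ _ (by omega)]
    constructor
    · intro h; simp at h
    · intro h; exact absurd (R_lt e he _ _ h) hj

theorem inv_Js (k : ℕ) : Inv (R e) k (Js e k) := by
  induction k with
  | zero => exact inv_zero _
  | succ k ih => exact inv_succ (R_lt e he) ih (D_testBit e he k)

theorem Js_lt (k : ℕ) : ∀ m ∈ Js e k, m < 2 ^ k := fun m hm => (((inv_Js e he k).mem m).1 hm).1

theorem D_lt (k : ℕ) : D e k < 2 ^ k := by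
  unfold D; exact Nat.ofBits_lt_two_pow _

theorem D_mem (k : ℕ) : D e k ∈ Js e k := by
  rw [(inv_Js e he k).mem]
  refine ⟨D_lt e he k, ?_⟩
  intro i hi j hj
  rw [D_testBit e he] at hi ⊢
  obtain ⟨h1, h2, h3⟩ := hi
  obtain ⟨h4, h5, h6⟩ := hj
  exact ⟨h4, h2, h6.trans h3⟩

theorem sb_full {m k : ℕ} (hm : m < 2 ^ k) : sb m (2 ^ k - 1) = true := by
  rw [sb_iff]
  intro i hi
  rw [Nat.testBit_two_pow_sub_one]
  by_contra h
  have h2 : ¬ i < k := by simpa using h
  rw [Nat.testBit_lt_two_pow (lt_of_lt_of_le hm (Nat.pow_le_pow_right (by norm_num)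
    (by omega : k ≤ i)))] at hi
  simp at hi

theorem full_mem (k : ℕ) : 2 ^ k - 1 ∈ Js e k := by
  rw [(inv_Js e he k).mem]
  refine ⟨by have : 0 < 2 ^ k := by positivity
             omega, ?_⟩
  intro i hi j hj
  rw [Nat.testBit_two_pow_sub_one] at hi ⊢
  have := R_lt e he _ _ hj
  simp at hi ⊢
  omega

theorem z3_Js_succ (k : ℕ) :
    z3 (Js e k) + z2 (Js e k) + (Js e k).length + 1 ≤ z3 (Js e (k + 1)) :=
  z3_ext_ge (Js_lt e he k) (D e k) (full_mem e he k)
    (fun m hm => sb_full e he (Js_lt e he k m hm)) (sb_full e he (D_lt e he k))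

theorem z3_Js_mono {k m : ℕ} (h : k ≤ m) : z3 (Js e k) ≤ z3 (Js e m) := by
  induction m, h using Nat.le_induction with
  | base => exact le_rfl
  | succ m _ ih =>
    have := z3_Js_succ e he m
    omega

theorem dn_Js_stable {k m : ℕ} (h : k ≤ m) {B : ℕ} (hB : B < 2 ^ k) :
    dn (Js e m) B = dn (Js e k) B := by
  induction m, h using Nat.le_induction with
  | base => rfl
  | succ m hm ih =>
    rw [← ih]
    exact dn_ext_old (Js_lt e he m) _ (lt_of_lt_of_le hB (Nat.pow_le_pow_right (by norm_num) hm))

/-- soundness of the search along the path of a given ordered set -/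
theorem search_sound {bad lim : ℕ} {leaf : ℕ → ℕ → RL → Bool}
    (hkey : ∀ k, k + 1 < n → dn (Js e k) (D e k) ≤ dn (Js e (k + 1)) (D e (k + 1)))
    (hlim : z3 (Js e n) ≤ lim) (last : ℕ → ℕ) (hlast0 : last 0 = 0)
    (hlast : ∀ k, last (k + 1) = dn (Js e k) (D e k)) :
    ∀ fuel k, k < n → chk bad lim leaf fuel (2 ^ k) (last k) (ofJ (Js e k) (Js e k)) = true →
      (bad >>> z3 (Js e n)) % 2 = 0 ∨
      (k + fuel < n ∧ leaf (2 ^ (k + fuel)) (last (k + fuel))
        (ofJ (Js e (k + fuel)) (Js e (k + fuel))) = true) := by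
  intro fuel
  induction fuel with
  | zero => intro k hk h; exact Or.inr ⟨hk, h⟩
  | succ fuel ih =>
    intro k hk h
    have h1 : last k ≤ dn (Js e k) (D e k) := by
      cases k with
      | zero => rw [hlast0]; exact Nat.zero_le _
      | succ k => rw [hlast]; exact hkey k hk
    have h2 : z3 (ext (Js e k) (D e k) k) ≤ lim :=
      le_trans (z3_Js_mono e he (show k + 1 ≤ n from hk)) hlim
    obtain ⟨h3, h4⟩ := chk_succ (Js_lt e he k) h (D_mem e he k) h1 h2
    by_cases hkn : k + 1 = n
    · left
      have hgen : ∀ m, m = k + 1 → Js e m = ext (Js e k) (D e k) k := by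
        intro m hm
        subst hm
        rfl
      rw [hgen n hkn.symm]
      exact h3
    · have hkn' : k + 1 < n := by omega
      have h5 := z3_Js_succ e he (k + 1)
      have h6 := z3_Js_mono e he (show k + 1 + 1 ≤ n from hkn')
      have h7 := h4 (le_trans (le_trans h5 h6) hlim)
      have h8 := ih (k + 1) hkn' (by rw [hlast]; exact h7)
      rcases h8 with h8 | ⟨h8, h9⟩
      · exact Or.inl h8
      · right
        refine ⟨by omega, ?_⟩
        rw [show k + (fuel + 1) = k + 1 + fuel by ring]
        exact h9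

section lower

open Classical in
/-- code of a subset -/
noncomputable def code (A : Set α) : ℕ := Nat.ofBits (fun i : Fin n => decide (e i ∈ A))

omit [PartialOrder α] he in
theorem code_testBit (A : Set α) (i : ℕ) :
    (code e A).testBit i = true ↔ ∃ hi : i < n, e ⟨i, hi⟩ ∈ A := by
  classical
  unfold code
  by_cases hi : i < n
  · rw [Nat.testBit_ofBits_lt _ _ hi]
    simp [hi]
  · rw [Nat.testBit_ofBits_ge _ _ (by omega)]
    simp [hi]

omit [PartialOrder α] he in
theorem sb_code (A B : Set α) : sb (code e A) (code e B) = true ↔ A ⊆ B := by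
  rw [sb_iff]
  constructor
  · intro h x hx
    have h1 := h (e.symm x).1 ((code_testBit e A _).2 ⟨(e.symm x).2, by simpa using hx⟩)
    obtain ⟨h2, h3⟩ := (code_testBit e B _).1 h1
    simpa using h3
  · intro h i hi
    obtain ⟨h1, h2⟩ := (code_testBit e A _).1 hi
    exact (code_testBit e B _).2 ⟨h1, h h2⟩

theorem code_mem (A : LowerSet α) : code e (A : Set α) ∈ Js e n := by
  classical
  rw [(inv_Js e he n).mem]
  refine ⟨by unfold code; exact Nat.ofBits_lt_two_pow _, ?_⟩
  intro i hi j hj
  rw [code_testBit] at hi ⊢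
  obtain ⟨h1, h2⟩ := hi
  obtain ⟨h3, h4, h5⟩ := hj
  exact ⟨h3, A.lower h5.le h2⟩

/-- the bijection between lower sets and codes -/
noncomputable def φ : LowerSet α ≃ {m // m ∈ Js e n} := by
  classical
  refine Equiv.ofBijective (fun A => ⟨code e (A : Set α), code_mem e he A⟩) ⟨?_, ?_⟩
  · intro A B hAB
    have h := congrArg Subtype.val hAB
    simp only at h
    apply SetLike.coe_injective
    apply Set.Subset.antisymm
    · rw [← sb_code e, h]; exact sb_refl _
    · rw [← sb_code e, ← h]; exact sb_refl _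
  · rintro ⟨m, hm⟩
    obtain ⟨h1, h2⟩ := ((inv_Js e he n).mem m).1 hm
    refine ⟨⟨{x | m.testBit (e.symm x).1 = true}, ?_⟩, ?_⟩
    · intro x y hyx hx
      rcases eq_or_lt_of_le hyx with rfl | hlt
      · exact hx
      · exact h2 _ hx _ ⟨(e.symm y).2, (e.symm x).2, by simpa using hlt⟩
    · apply Subtype.ext
      apply Nat.eq_of_testBit_eq
      intro i
      rw [Bool.eq_iff_iff]
      simp only
      rw [code_testBit]
      constructor
      · rintro ⟨hi, h⟩
        have h' : m.testBit (e.symm (e ⟨i, hi⟩)).1 = true := h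
        simpa using h'
      · intro h
        have hi : i < n := by
          by_contra hcon
          rw [Nat.testBit_lt_two_pow (lt_of_lt_of_le h1 (Nat.pow_le_pow_right (by norm_num)
            (by omega : n ≤ i)))] at h
          simp at h
        refine ⟨hi, ?_⟩
        change m.testBit (e.symm (e ⟨i, hi⟩)).1 = true
        simpa using h

theorem φ_val (A : LowerSet α) : ((φ e he) A).1 = code e (A : Set α) := rfl

theorem φ_le (A B : LowerSet α) : A ≤ B ↔ sb ((φ e he) A).1 ((φ e he) B).1 = true := by
  rw [φ_val, φ_val, sb_code]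
  rfl

theorem key_eq (k : Fin n) :
    dn (Js e k.1) (D e k.1) = Set.ncard {A : LowerSet α | ∀ y ∈ A, y < e k} := by
  rw [← dn_Js_stable e he (le_of_lt k.2) (D_lt e he k.1)]
  unfold dn
  rw [← card_sub (inv_Js e he n).nodup (φ e he) (fun m => sb m (D e k.1)), ← Nat.card_coe_set_eq]
  apply Nat.card_congr
  apply Equiv.subtypeEquivRight
  intro A
  rw [φ_val]
  simp only [Set.mem_ofPred_eq]
  rw [sb_iff]
  constructor
  · intro h y hy
    have h1 := h (e.symm y).1 ((code_testBit e _ _).2 ⟨(e.symm y).2, by simpa using hy⟩)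
    rw [D_testBit e he] at h1
    obtain ⟨h2, h3, h4⟩ := h1
    simpa using h4
  · intro h i hi
    obtain ⟨h1, h2⟩ := (code_testBit e _ _).1 hi
    rw [D_testBit e he]
    exact ⟨h1, k.2, h _ h2⟩

end lower

end path

instance lowerFinite (α : Type*) [PartialOrder α] [Finite α] : Finite (LowerSet α) :=
  Finite.of_injective (fun A => (A : Set α)) SetLike.coe_injective

section counts

variable {α : Type*} [PartialOrder α] {n : ℕ} (e : Fin n ≃ α) (he : ∀ i j, e i < e j → i < j)
include he

theorem card4 [Finite α] : Nat.card (α →o Fin 4) = z3 (Js e n) := by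
  rw [Nat.card_congr (equiv4 α)]
  exact card_three (inv_Js e he n).nodup (φ e he) (φ_le e he)

theorem card3 [Finite α] : Nat.card (α →o Fin 3) = z2 (Js e n) := by
  rw [Nat.card_congr (equiv3 α)]
  exact card_two (inv_Js e he n).nodup (φ e he) (φ_le e he)

theorem card2 [Finite α] : Nat.card (α →o Fin 2) = (Js e n).length := by
  rw [Nat.card_congr (equiv2 α)]
  exact card_one (inv_Js e he n).nodup (φ e he)

end counts

/-- every finite ordered set has an enumeration sorted by the number of lower sets strictly below -/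
theorem exists_enum (α : Type*) [PartialOrder α] [Finite α] :
    ∃ (n : ℕ) (e : Fin n ≃ α), (∀ i j, e i < e j → i < j) ∧
      ∀ i j : Fin n, i ≤ j → Set.ncard {A : LowerSet α | ∀ y ∈ A, y < e i} ≤
        Set.ncard {A : LowerSet α | ∀ y ∈ A, y < e j} := by
  classical
  let key : α → ℕ := fun x => Set.ncard {A : LowerSet α | ∀ y ∈ A, y < x}
  have hkey : ∀ x y : α, x < y → key x < key y := by
    intro x y hxy
    apply Set.ncard_lt_ncard _ (Set.toFinite _)
    constructor
    · intro A hA z hz
      exact lt_trans (hA z hz) hxy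
    · intro hcon
      have h1 : LowerSet.Iic x ∈ {A : LowerSet α | ∀ z ∈ A, z < y} := by
        intro z hz
        exact lt_of_le_of_lt (LowerSet.mem_Iic_iff.1 hz) hxy
      have h2 := hcon h1
      exact lt_irrefl x (h2 x (LowerSet.mem_Iic_iff.2 le_rfl))
  let e0 : Fin (Nat.card α) ≃ α := (Finite.equivFin α).symm
  let f : Fin (Nat.card α) → ℕ := fun i => key (e0 i)
  have hmono := Tuple.monotone_sort f
  refine ⟨Nat.card α, (Tuple.sort f).trans e0, ?_, ?_⟩
  · intro i j hij
    by_contra hcon
    have h1 : j ≤ i := not_lt.1 hcon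
    have h2 := hmono h1
    have h3 := hkey _ _ hij
    simp only [Function.comp, Equiv.trans_apply] at h2 h3
    exact absurd h3 (not_lt.2 h2)
  · intro i j hij
    exact hmono hij

end Pool.Agent.Helper875.MonoE
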