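import Pool.Agent.Helper875.MonoE

/-!
Data for the exhaustive search up to 801, which is split into twelve parts.
-/

namespace Pool.Agent.Helper875.MonoF

open Pool.Agent.Helper875.MonoA Pool.Agent.Helper875.MonoB Pool.Agent.Helper875.MonoC

/-- bit mask of the exceptional values -/
def bad : ℕ := 16687944142411574333239551835274936708034490825985920004539455192150560629079433172251326813555129492497267452244910344336447821071983974219996637155357951800083431557339353404882130701784798352675818805770782730035414495586678768507657583596

noncomputable def leaf2 : ℕ → ℕ → RL → Bool := fun _ _ _ => false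

noncomputable def hash (J : RL) : ℕ :=
  Nat.mod (Nat.shiftRight (Nat.add (Nat.mul 24 (s3 J)) (Nat.mul 17 (s2 J))) 4) 12

noncomputable def leaf1 (r : ℕ) : ℕ → ℕ → RL → Bool := fun p last J =>
  @Bool.rec (fun _ => Bool) true (chk bad 801 leaf2 10 p last J) (Nat.beq (hash J) r)

noncomputable def root : RL := RL.cons 0 1 1 RL.nil

end Pool.Agent.Helper875.MonoF
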