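import Pool.Agent.Helper875.MonoF

/-!
Parts 3 to 5 of the exhaustive search.
-/

set_option maxRecDepth 100000

namespace Pool.Agent.Helper875.MonoF

open Pool.Agent.Helper875.MonoC

theorem part3 : chk bad 801 (leaf1 3) 6 1 0 root = true := by decide +kernel

theorem part4 : chk bad 801 (leaf1 4) 6 1 0 root = true := by decide +kernel

theorem part5 : chk bad 801 (leaf1 5) 6 1 0 root = true := by decide +kernel

end Pool.Agent.Helper875.MonoF
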