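import Pool.Agent.Helper875.MonoF

/-!
Parts 6 to 8 of the exhaustive search.
-/

set_option maxRecDepth 100000

namespace Pool.Agent.Helper875.MonoF

open Pool.Agent.Helper875.MonoC

theorem part6 : chk bad 801 (leaf1 6) 6 1 0 root = true := by decide +kernel

theorem part7 : chk bad 801 (leaf1 7) 6 1 0 root = true := by decide +kernel

theorem part8 : chk bad 801 (leaf1 8) 6 1 0 root = true := by decide +kernel

end Pool.Agent.Helper875.MonoF
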