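import Pool.Agent.Helper875.MonoF

/-!
Parts 9 to 11 of the exhaustive search.
-/

set_option maxRecDepth 100000

namespace Pool.Agent.Helper875.MonoF

open Pool.Agent.Helper875.MonoC

theorem part9 : chk bad 801 (leaf1 9) 6 1 0 root = true := by decide +kernel

theorem part10 : chk bad 801 (leaf1 10) 6 1 0 root = true := by decide +kernel

theorem part11 : chk bad 801 (leaf1 11) 6 1 0 root = true := by decide +kernel

end Pool.Agent.Helper875.MonoF
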