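import Pool.Agent.Helper875.MonoF0
import Pool.Agent.Helper875.MonoF1
import Pool.Agent.Helper875.MonoF2
import Pool.Agent.Helper875.MonoF3

/-!
No nonempty finite ordered set has an exceptional number of monotone maps to the four-chain.
-/

namespace Pool.Agent.Helper875.MonoG

open Pool.Agent.Helper875.MonoA Pool.Agent.Helper875.MonoB Pool.Agent.Helper875.MonoC
  Pool.Agent.Helper875.MonoD Pool.Agent.Helper875.MonoE Pool.Agent.Helper875.MonoF

theorem parts (r : ℕ) (hr : r < 12) : chk bad 801 (leaf1 r) 6 1 0 root = true := by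
  interval_cases r
  · exact part0
  · exact part1
  · exact part2
  · exact part3
  · exact part4
  · exact part5
  · exact part6
  · exact part7
  · exact part8
  · exact part9
  · exact part10
  · exact part11

theorem not_bad (α : Type*) [PartialOrder α] [Finite α] [Nonempty α]
    (h : Nat.card (α →o Fin 4) ≤ 801) : (bad >>> Nat.card (α →o Fin 4)) % 2 = 0 := by
  obtain ⟨n, e, he, hs⟩ := exists_enum α
  have hn : 0 < n := by
    rcases Nat.eq_zero_or_pos n with h0 | h0
    · subst h0
      obtain ⟨x⟩ := (inferInstance : Nonempty α)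
      exact (e.symm x).elim0
    · exact h0
  rw [card4 e he] at h ⊢
  have hkey : ∀ k, k + 1 < n → dn (Js e k) (D e k) ≤ dn (Js e (k + 1)) (D e (k + 1)) := by
    intro k hk
    have h1 := key_eq e he ⟨k, by omega⟩
    have h2 := key_eq e he ⟨k + 1, hk⟩
    simp only at h1 h2
    rw [h1, h2]
    apply hs
    simp
  let last : ℕ → ℕ := fun k => Nat.rec 0 (fun k _ => dn (Js e k) (D e k)) k
  have hl0 : last 0 = 0 := rfl
  have hl : ∀ k, last (k + 1) = dn (Js e k) (D e k) := fun k => rfl
  have hroot : root = ofJ (Js e 0) (Js e 0) := rfl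
  have h6 := search_sound e he (bad := bad) (lim := 801)
    (leaf := leaf1 (hash (ofJ (Js e (0 + 6)) (Js e (0 + 6))))) hkey h last hl0 hl 6 0 hn
    (by
      have := parts (hash (ofJ (Js e (0 + 6)) (Js e (0 + 6)))) (Nat.mod_lt _ (by norm_num))
      rw [← hroot]
      exact this)
  rcases h6 with h6 | ⟨h6, h7⟩
  · exact h6
  · have h8 : chk bad 801 leaf2 10 (2 ^ (0 + 6)) (last (0 + 6))
        (ofJ (Js e (0 + 6)) (Js e (0 + 6))) = true := by
      unfold leaf1 at h7
      rw [Nat.beq_refl] at h7
      exact h7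
    have h9 := search_sound e he (bad := bad) (lim := 801) (leaf := leaf2) hkey h last hl0 hl 10
      (0 + 6) h6 h8
    rcases h9 with h9 | ⟨h9, h10⟩
    · exact h9
    · exact absurd h10 (by simp [leaf2])

end Pool.Agent.Helper875.MonoG
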