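import Mathlib

/-!
Linear sums of finite ordered sets and the numbers of monotone maps into short chains.
-/

namespace Pool.Agent.Helper875.MonoH

set_option linter.unusedSectionVars false

section cards

variable (P : Type*) [PartialOrder P]

theorem card_low {m j : ℕ} (hj : j ≤ m) :
    Nat.card {f : P →o Fin (m + 1) // ∀ x, (f x).val ≤ j} = Nat.card (P →o Fin (j + 1)) := by
  apply Nat.card_congr
  exact
  { toFun := fun f => ⟨fun x => ⟨(f.1 x).val, Nat.lt_succ_of_le (f.2 x)⟩,
      fun x y hxy => f.1.monotone hxy⟩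
    invFun := fun g => ⟨⟨fun x => ⟨(g x).val, lt_of_lt_of_le (g x).2 (by omega)⟩,
      fun x y hxy => g.monotone hxy⟩, fun x => Nat.le_of_lt_succ (g x).2⟩
    left_inv := fun f => by
      apply Subtype.ext
      ext x
      rfl
    right_inv := fun g => by
      ext x
      rfl }

theorem card_high {m i : ℕ} (hi : i ≤ m) :
    Nat.card {f : P →o Fin (m + 1) // ∀ x, i ≤ (f x).val} = Nat.card (P →o Fin (m + 1 - i)) := by
  apply Nat.card_congr
  exact
  { toFun := fun f => ⟨fun x => ⟨(f.1 x).val - i, by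
        have h1 := (f.1 x).2
        have h2 := f.2 x
        omega⟩,
      fun x y hxy => by
        have h1 : (f.1 x).val ≤ (f.1 y).val := f.1.monotone hxy
        change (f.1 x).val - i ≤ (f.1 y).val - i
        omega⟩
    invFun := fun g => ⟨⟨fun x => ⟨(g x).val + i, by
        have h1 := (g x).2
        omega⟩,
      fun x y hxy => by
        have h1 : (g x).val ≤ (g y).val := g.monotone hxy
        change (g x).val + i ≤ (g y).val + i
        omega⟩, fun x => Nat.le_add_left _ _⟩
    left_inv := fun f => by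
      apply Subtype.ext
      ext x
      change (f.1 x).val - i + i = (f.1 x).val
      have := f.2 x
      omega
    right_inv := fun g => by
      ext x
      change (g x).val + i - i = (g x).val
      omega }

end cards

section lex

variable (P Q : Type*) [PartialOrder P] [PartialOrder Q]

/-- maps from a linear sum are compatible pairs -/
def lexEquiv (m : ℕ) : (P ⊕ₗ Q →o Fin m) ≃
    {fg : (P →o Fin m) × (Q →o Fin m) // ∀ x y, fg.1 x ≤ fg.2 y} where
  toFun h := ⟨(⟨fun x => h (Sum.inlₗ x), fun x y hxy => h.monotone (Sum.Lex.inl_le_inl_iff.2 hxy)⟩,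
      ⟨fun x => h (Sum.inrₗ x), fun x y hxy => h.monotone (Sum.Lex.inr_le_inr_iff.2 hxy)⟩),
      fun x y => h.monotone (Sum.Lex.inl_le_inr x y)⟩
  invFun fg := ⟨fun z => Sum.elim fg.1.1 fg.1.2 (ofLex z), by
    intro a b hab
    have hab' := hab
    rw [Sum.Lex.le_def] at hab'
    cases ha : ofLex a with
    | inl x =>
      cases hb : ofLex b with
      | inl y =>
        rw [ha, hb] at hab'
        simp only [ha, hb, Sum.elim_inl]
        exact fg.1.1.monotone (Sum.lex_inl_inl.1 hab')
      | inr y =>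
        simp only [ha, hb, Sum.elim_inl, Sum.elim_inr]
        exact fg.2 x y
    | inr x =>
      cases hb : ofLex b with
      | inl y =>
        rw [ha, hb] at hab'
        exact absurd hab' Sum.lex_inr_inl
      | inr y =>
        rw [ha, hb] at hab'
        simp only [ha, hb, Sum.elim_inr]
        exact fg.1.2.monotone (Sum.lex_inr_inr.1 hab')⟩
  left_inv h := by
    ext z
    change ((Sum.elim (fun x => h (Sum.inlₗ x)) (fun x => h (Sum.inrₗ x)) (ofLex z) : Fin m)).val
      = (h z).val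
    cases hz : ofLex z with
    | inl x => 
      have : z = Sum.inlₗ x := by rw [← toLex_ofLex z, hz]
      rw [this]; rfl
    | inr x => 
      have : z = Sum.inrₗ x := by rw [← toLex_ofLex z, hz]
      rw [this]; rfl
  right_inv fg := by
    apply Subtype.ext
    apply Prod.ext
    · ext x; rfl
    · ext x; rfl

end lex


section indicator

open Classical in
theorem card_eq_sum {X Y : Type*} [Fintype X] [Fintype Y] (r : X → Y → Prop) :
    Nat.card {fg : X × Y // r fg.1 fg.2} = ∑ f : X, ∑ g : Y, if r f g then 1 else 0 := by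
  rw [Nat.card_eq_fintype_card, Fintype.card_subtype, Finset.card_filter, ← Finset.univ_product_univ,
    Finset.sum_product]

open Classical in
theorem sum_prod {X Y : Type*} [Fintype X] [Fintype Y] (p : X → Prop) (q : Y → Prop) :
    (∑ f : X, ∑ g : Y, if (p f ∧ q g) then 1 else 0) = Nat.card {f // p f} * Nat.card {g // q g} := by
  rw [Nat.card_eq_fintype_card, Nat.card_eq_fintype_card, Fintype.card_subtype,
    Fintype.card_subtype, Finset.card_filter, Finset.card_filter, Finset.sum_mul_sum]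
  refine Finset.sum_congr rfl fun f _ => Finset.sum_congr rfl fun g _ => ?_
  by_cases h1 : p f <;> by_cases h2 : q g <;> simp [h1, h2]

/-- the compatible pairs are those separated by some level -/
theorem compat_iff {P Q : Type*} [Finite P] {m : ℕ} (f : P → Fin (m + 1)) (g : Q → Fin (m + 1)) :
    (∀ x y, f x ≤ g y) ↔ ∃ j ≤ m, (∀ x, (f x).val ≤ j) ∧ (∀ y, j ≤ (g y).val) := by
  constructor
  · intro h
    rcases isEmpty_or_nonempty P with hP | hP
    · exact ⟨0, Nat.zero_le _, fun x => (hP.false x).elim, fun y => Nat.zero_le _⟩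
    · obtain ⟨x0, hx0⟩ := Finite.exists_max f
      exact ⟨(f x0).val, Nat.le_of_lt_succ (f x0).2, fun x => hx0 x, fun y => h x0 y⟩
  · rintro ⟨j, _, h1, h2⟩ x y
    exact Fin.le_def.2 (le_trans (h1 x) (h2 y))

theorem ind1 (p0 q1 c : Prop) [Decidable p0] [Decidable q1] [Decidable c] (hc : c ↔ p0 ∨ q1) :
    (if c then 1 else 0) + (if (p0 ∧ q1) then 1 else 0) =
      (if p0 then 1 else 0) + (if q1 then 1 else 0) := by
  by_cases h0 : p0 <;> by_cases h1 : q1 <;> simp [h0, h1, hc]

theorem ind2 (p0 p1 q1 q2 c : Prop) [Decidable p0] [Decidable p1] [Decidable q1] [Decidable q2]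
    [Decidable c] (h01 : p0 → p1) (h12 : q2 → q1) (hc : c ↔ p0 ∨ (p1 ∧ q1) ∨ q2) :
    (if c then 1 else 0) + ((if (p0 ∧ q1) then 1 else 0) + (if (p1 ∧ q2) then 1 else 0)) =
      (if p0 then 1 else 0) + (if (p1 ∧ q1) then 1 else 0) + (if q2 then 1 else 0) := by
  by_cases a0 : p0 <;> by_cases a1 : p1 <;> by_cases b1 : q1 <;> by_cases b2 : q2 <;>
    simp_all

theorem ind3 (p0 p1 p2 q1 q2 q3 c : Prop) [Decidable p0] [Decidable p1] [Decidable p2]
    [Decidable q1] [Decidable q2] [Decidable q3]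
    [Decidable c] (h01 : p0 → p1) (h12 : p1 → p2) (g12 : q2 → q1) (g23 : q3 → q2)
    (hc : c ↔ p0 ∨ (p1 ∧ q1) ∨ (p2 ∧ q2) ∨ q3) :
    (if c then 1 else 0) + ((if (p0 ∧ q1) then 1 else 0) + (if (p1 ∧ q2) then 1 else 0) +
      (if (p2 ∧ q3) then 1 else 0)) =
      (if p0 then 1 else 0) + (if (p1 ∧ q1) then 1 else 0) + (if (p2 ∧ q2) then 1 else 0) +
        (if q3 then 1 else 0) := by
  by_cases a0 : p0 <;> by_cases a1 : p1 <;> by_cases a2 : p2 <;> by_cases b1 : q1 <;>
    by_cases b2 : q2 <;> by_cases b3 : q3 <;> simp_all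

end indicator

section final

variable (P Q : Type*) [PartialOrder P] [PartialOrder Q] [Finite P] [Finite Q]

open Classical in
theorem prod_eq {m j i : ℕ} (hj : j ≤ m) (hi : i ≤ m) [Fintype (P →o Fin (m + 1))]
    [Fintype (Q →o Fin (m + 1))] :
    Nat.card (P →o Fin (j + 1)) * Nat.card (Q →o Fin (m + 1 - i)) =
    ∑ f : P →o Fin (m + 1), ∑ g : Q →o Fin (m + 1),
      if ((∀ x, (f x).val ≤ j) ∧ (∀ y, i ≤ (g y).val)) then 1 else 0 := by
  rw [← card_low P hj, ← card_high Q hi]
  exact (sum_prod (fun f : P →o Fin (m + 1) => ∀ x, (f x).val ≤ j)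
    (fun g : Q →o Fin (m + 1) => ∀ y, i ≤ (g y).val)).symm

instance homFinite (m : ℕ) : Finite (P →o Fin m) :=
  Finite.of_injective (fun f : P →o Fin m => (f : P → Fin m)) DFunLike.coe_injective

theorem lex4 : Nat.card (P ⊕ₗ Q →o Fin 4) +
    (Nat.card (P →o Fin 1) * Nat.card (Q →o Fin 3) + Nat.card (P →o Fin 2) * Nat.card (Q →o Fin 2)
      + Nat.card (P →o Fin 3) * Nat.card (Q →o Fin 1)) =
    Nat.card (P →o Fin 1) * Nat.card (Q →o Fin 4) + Nat.card (P →o Fin 2) * Nat.card (Q →o Fin 3)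
      + Nat.card (P →o Fin 3) * Nat.card (Q →o Fin 2)
      + Nat.card (P →o Fin 4) * Nat.card (Q →o Fin 1) := by
  classical
  have := Fintype.ofFinite (P →o Fin (3 + 1))
  have := Fintype.ofFinite (Q →o Fin (3 + 1))
  rw [Nat.card_congr (lexEquiv P Q 4)]
  have h0 := card_eq_sum (fun (f : P →o Fin (3 + 1)) (g : Q →o Fin (3 + 1)) => ∀ x y, f x ≤ g y)
  have h1 := prod_eq P Q (m := 3) (j := 0) (i := 1) (by norm_num) (by norm_num)
  have h2 := prod_eq P Q (m := 3) (j := 1) (i := 2) (by norm_num) (by norm_num)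
  have h3 := prod_eq P Q (m := 3) (j := 2) (i := 3) (by norm_num) (by norm_num)
  have h4 := prod_eq P Q (m := 3) (j := 0) (i := 0) (by norm_num) (by norm_num)
  have h5 := prod_eq P Q (m := 3) (j := 1) (i := 1) (by norm_num) (by norm_num)
  have h6 := prod_eq P Q (m := 3) (j := 2) (i := 2) (by norm_num) (by norm_num)
  have h7 := prod_eq P Q (m := 3) (j := 3) (i := 3) (by norm_num) (by norm_num)
  norm_num only at h0 h1 h2 h3 h4 h5 h6 h7
  rw [h0, h1, h2, h3, h4, h5, h6, h7]
  simp only [← Finset.sum_add_distrib]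
  refine Finset.sum_congr rfl fun f _ => Finset.sum_congr rfl fun g _ => ?_
  have hp : ∀ x, (f x).val ≤ 3 := fun x => by have := (f x).2; omega
  have hq : ∀ y, 0 ≤ (g y).val := fun y => Nat.zero_le _
  have key := ind3 (∀ x, (f x).val ≤ 0) (∀ x, (f x).val ≤ 1) (∀ x, (f x).val ≤ 2)
    (∀ y, 1 ≤ (g y).val) (∀ y, 2 ≤ (g y).val) (∀ y, 3 ≤ (g y).val) (∀ x y, f x ≤ g y)
    (fun h x => le_trans (h x) (by norm_num)) (fun h x => le_trans (h x) (by norm_num))
    (fun h x => le_trans (by norm_num) (h x)) (fun h x => le_trans (by norm_num) (h x))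
    (by
      rw [compat_iff (m := 3) (f : P → Fin (3 + 1)) (g : Q → Fin (3 + 1))]
      constructor
      · rintro ⟨j, hj, h1, h2⟩
        interval_cases j
        · exact Or.inl h1
        · exact Or.inr (Or.inl ⟨h1, h2⟩)
        · exact Or.inr (Or.inr (Or.inl ⟨h1, h2⟩))
        · exact Or.inr (Or.inr (Or.inr h2))
      · rintro (h | h | h | h)
        · exact ⟨0, by norm_num, h, hq⟩
        · exact ⟨1, by norm_num, h⟩
        · exact ⟨2, by norm_num, h⟩
        · exact ⟨3, by norm_num, hp, h⟩)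
  simp only [hp, hq, implies_true, and_true, true_and]
  linarith [key]

theorem lex3 : Nat.card (P ⊕ₗ Q →o Fin 3) +
    (Nat.card (P →o Fin 1) * Nat.card (Q →o Fin 2) + Nat.card (P →o Fin 2) * Nat.card (Q →o Fin 1)) =
    Nat.card (P →o Fin 1) * Nat.card (Q →o Fin 3) + Nat.card (P →o Fin 2) * Nat.card (Q →o Fin 2)
      + Nat.card (P →o Fin 3) * Nat.card (Q →o Fin 1) := by
  classical
  have := Fintype.ofFinite (P →o Fin (2 + 1))
  have := Fintype.ofFinite (Q →o Fin (2 + 1))
  rw [Nat.card_congr (lexEquiv P Q 3)]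
  have h0 := card_eq_sum (fun (f : P →o Fin (2 + 1)) (g : Q →o Fin (2 + 1)) => ∀ x y, f x ≤ g y)
  have h1 := prod_eq P Q (m := 2) (j := 0) (i := 1) (by norm_num) (by norm_num)
  have h2 := prod_eq P Q (m := 2) (j := 1) (i := 2) (by norm_num) (by norm_num)
  have h4 := prod_eq P Q (m := 2) (j := 0) (i := 0) (by norm_num) (by norm_num)
  have h5 := prod_eq P Q (m := 2) (j := 1) (i := 1) (by norm_num) (by norm_num)
  have h6 := prod_eq P Q (m := 2) (j := 2) (i := 2) (by norm_num) (by norm_num)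
  norm_num only at h0 h1 h2 h4 h5 h6
  rw [h0, h1, h2, h4, h5, h6]
  simp only [← Finset.sum_add_distrib]
  refine Finset.sum_congr rfl fun f _ => Finset.sum_congr rfl fun g _ => ?_
  have hp : ∀ x, (f x).val ≤ 2 := fun x => by have := (f x).2; omega
  have hq : ∀ y, 0 ≤ (g y).val := fun y => Nat.zero_le _
  have key := ind2 (∀ x, (f x).val ≤ 0) (∀ x, (f x).val ≤ 1)
    (∀ y, 1 ≤ (g y).val) (∀ y, 2 ≤ (g y).val) (∀ x y, f x ≤ g y)
    (fun h x => le_trans (h x) (by norm_num))
    (fun h x => le_trans (by norm_num) (h x))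
    (by
      rw [compat_iff (m := 2) (f : P → Fin (2 + 1)) (g : Q → Fin (2 + 1))]
      constructor
      · rintro ⟨j, hj, h1, h2⟩
        interval_cases j
        · exact Or.inl h1
        · exact Or.inr (Or.inl ⟨h1, h2⟩)
        · exact Or.inr (Or.inr h2)
      · rintro (h | h | h)
        · exact ⟨0, by norm_num, h, hq⟩
        · exact ⟨1, by norm_num, h⟩
        · exact ⟨2, by norm_num, hp, h⟩)
  simp only [hp, hq, implies_true, and_true, true_and]
  linarith [key]

theorem lex2 : Nat.card (P ⊕ₗ Q →o Fin 2) +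
    (Nat.card (P →o Fin 1) * Nat.card (Q →o Fin 1)) =
    Nat.card (P →o Fin 1) * Nat.card (Q →o Fin 2) + Nat.card (P →o Fin 2) * Nat.card (Q →o Fin 1)
     := by
  classical
  have := Fintype.ofFinite (P →o Fin (1 + 1))
  have := Fintype.ofFinite (Q →o Fin (1 + 1))
  rw [Nat.card_congr (lexEquiv P Q 2)]
  have h0 := card_eq_sum (fun (f : P →o Fin (1 + 1)) (g : Q →o Fin (1 + 1)) => ∀ x y, f x ≤ g y)
  have h1 := prod_eq P Q (m := 1) (j := 0) (i := 1) (by norm_num) (by norm_num)
  have h4 := prod_eq P Q (m := 1) (j := 0) (i := 0) (by norm_num) (by norm_num)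
  have h5 := prod_eq P Q (m := 1) (j := 1) (i := 1) (by norm_num) (by norm_num)
  norm_num only at h0 h1 h4 h5
  rw [h0, h1, h4, h5]
  simp only [← Finset.sum_add_distrib]
  refine Finset.sum_congr rfl fun f _ => Finset.sum_congr rfl fun g _ => ?_
  have hp : ∀ x, (f x).val ≤ 1 := fun x => by have := (f x).2; omega
  have hq : ∀ y, 0 ≤ (g y).val := fun y => Nat.zero_le _
  have key := ind1 (∀ x, (f x).val ≤ 0)
    (∀ y, 1 ≤ (g y).val) (∀ x y, f x ≤ g y)
    (by
      rw [compat_iff (m := 1) (f : P → Fin (1 + 1)) (g : Q → Fin (1 + 1))]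
      constructor
      · rintro ⟨j, hj, h1, h2⟩
        interval_cases j
        · exact Or.inl h1
        · exact Or.inr h2
      · rintro (h | h)
        · exact ⟨0, by norm_num, h, hq⟩
        · exact ⟨1, by norm_num, hp, h⟩)
  simp only [hp, hq, implies_true, and_true, true_and]
  linarith [key]

omit [Finite P] in
theorem card_one_map : Nat.card (P →o Fin 1) = 1 := by
  have : Subsingleton (P →o Fin 1) := ⟨fun f g => by
    ext x
    have h1 := (f x).2
    have h2 := (g x).2
    omega⟩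
  have : Nonempty (P →o Fin 1) := ⟨⟨fun _ => 0, fun _ _ _ => le_rfl⟩⟩
  exact Nat.card_of_subsingleton (Classical.arbitrary _)

/-- `Real s a b`: some finite ordered set has `|2^P| = s + 1`, `|3^P| = C(s+2,2) - a` and
`|4^P| = C(s+3,3) - a (s+1) + b`. -/
def Real (s a b : ℕ) : Prop := ∃ (P : Type) (_ : PartialOrder P) (_ : Finite P),
  Nat.card (P →o Fin 2) = s + 1 ∧
  2 * Nat.card (P →o Fin 3) + 2 * a = (s + 2) * (s + 1) ∧
  6 * Nat.card (P →o Fin 4) + 6 * (a * (s + 1)) = (s + 3) * (s + 2) * (s + 1) + 6 * b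

theorem Real.add {s a b s' a' b' : ℕ} (h : Real s a b) (h' : Real s' a' b') :
    Real (s + s') (a + a') (b + b') := by
  obtain ⟨P, _, _, h1, h2, h3⟩ := h
  obtain ⟨Q, _, _, g1, g2, g3⟩ := h'
  refine ⟨P ⊕ₗ Q, inferInstance, inferInstanceAs (Finite (P ⊕ Q)), ?_, ?_, ?_⟩
  · have := lex2 P Q
    rw [card_one_map, card_one_map, h1, g1] at this
    omega
  · have := lex3 P Q
    rw [card_one_map, card_one_map, h1, g1] at this
    zify at *
    linear_combination 2 * this + h2 + g2
  · have := lex4 P Q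
    rw [card_one_map, card_one_map, h1, g1] at this
    zify at *
    linear_combination 6 * this + h3 + g3 + 3 * (s : ℤ) * g2 + 3 * (s' : ℤ) * h2

end final

end Pool.Agent.Helper875.MonoH
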