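import Pool.Agent.Helper875.MonoE
import Pool.Agent.Helper875.MonoH

/-!
Ordered sets given by explicit lists of masks.
-/

namespace Pool.Agent.Helper875.MonoI

open Pool.Agent.Helper875.MonoA Pool.Agent.Helper875.MonoB Pool.Agent.Helper875.MonoC
  Pool.Agent.Helper875.MonoD Pool.Agent.Helper875.MonoE Pool.Agent.Helper875.MonoH

/-- lists of down-closed sets produced by a list of predecessor masks -/
def Jl (l : List ℕ) : ℕ → List ℕ
  | 0 => [0]
  | k + 1 => ext (Jl l k) (l.getD k 0) k

def Valid (l : List ℕ) : Prop := ∀ k, k < l.length → l.getD k 0 ∈ Jl l k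

theorem Jl_lt (l : List ℕ) (k : ℕ) : ∀ m ∈ Jl l k, m < 2 ^ k := by
  induction k with
  | zero => intro m hm; simp [Jl] at hm; subst hm; norm_num
  | succ k ih =>
    intro m hm
    unfold Jl ext at hm
    rw [List.mem_append, List.mem_map] at hm
    rcases hm with hm | ⟨m', hm', rfl⟩
    · exact lt_of_lt_of_le (ih m hm) (Nat.pow_le_pow_right (by norm_num) (Nat.le_succ k))
    · rw [List.mem_filter] at hm'
      have := ih m' hm'.1
      rw [pow_succ]; omega

/-- strict relation coded by the list -/
def Rl (l : List ℕ) (i j : ℕ) : Prop := j < l.length ∧ (l.getD j 0).testBit i = true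

theorem Rl_lt {l : List ℕ} (hl : Valid l) (i j : ℕ) (h : Rl l i j) : i < j := by
  by_contra hcon
  have h1 := Jl_lt l j _ (hl j h.1)
  have h2 := h.2
  rw [Nat.testBit_lt_two_pow (lt_of_lt_of_le h1 (Nat.pow_le_pow_right (by norm_num)
    (by omega : j ≤ i)))] at h2
  simp at h2

theorem inv_Jl {l : List ℕ} (hl : Valid l) (k : ℕ) (hk : k ≤ l.length) : Inv (Rl l) k (Jl l k) := by
  induction k with
  | zero => exact inv_zero _
  | succ k ih =>
    refine inv_succ (Rl_lt hl) (ih (by omega)) (fun j => ?_)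
    unfold Rl
    constructor
    · intro h; exact ⟨by omega, h⟩
    · intro h; exact h.2

theorem Rl_trans {l : List ℕ} (hl : Valid l) {i j m : ℕ} (h1 : Rl l i j) (h2 : Rl l j m) :
    Rl l i m := by
  have h3 := ((inv_Jl hl m h2.1.le).mem _).1 (hl m h2.1)
  exact ⟨h2.1, h3.2 j h2.2 i h1⟩

/-- the points of the coded ordered set -/
def Pt (l : List ℕ) : Type := Fin l.length

/-- index of a point -/
def Pt.idx {l : List ℕ} (i : Pt l) : ℕ := Fin.val i

instance (l : List ℕ) : Finite (Pt l) := inferInstanceAs (Finite (Fin l.length))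

/-- the ordered set coded by a valid list -/
@[instance_reducible]
def order (l : List ℕ) (hl : Valid l) : PartialOrder (Pt l) where
  le i j := i = j ∨ Rl l i.idx j.idx
  lt i j := Rl l i.idx j.idx
  le_refl i := Or.inl rfl
  le_trans i j m h1 h2 := by
    rcases h1 with rfl | h1
    · exact h2
    · rcases h2 with rfl | h2
      · exact Or.inr h1
      · exact Or.inr (Rl_trans hl h1 h2)
  lt_iff_le_not_ge i j := by
    constructor
    · intro h
      refine ⟨Or.inr h, ?_⟩
      rintro (h' | h')
      · subst h'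
        exact absurd (Rl_lt hl _ _ h) (lt_irrefl _)
      · have := Rl_lt hl _ _ h
        have := Rl_lt hl _ _ h'
        omega
    · rintro ⟨h1 | h1, h2⟩
      · exact absurd (Or.inl h1.symm) h2
      · exact h1
  le_antisymm i j h1 h2 := by
    rcases h1 with h1 | h1
    · exact h1
    · rcases h2 with h2 | h2
      · exact h2.symm
      · have := Rl_lt hl _ _ h1
        have := Rl_lt hl _ _ h2
        omega

theorem exists_of_valid {l : List ℕ} (hl : Valid l) :
    ∃ (P : Type) (_ : PartialOrder P) (_ : Finite P),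
      Nat.card (P →o Fin 2) = (Jl l l.length).length ∧
      Nat.card (P →o Fin 3) = z2 (Jl l l.length) ∧
      Nat.card (P →o Fin 4) = z3 (Jl l l.length) := by
  let _ := order l hl
  let e : Fin l.length ≃ Pt l := Equiv.refl _
  have he' : ∀ i j : Fin l.length, e i < e j → i < j :=
    fun i j h => Rl_lt hl i.1 j.1 h
  have hR : ∀ i j, R e i j ↔ Rl l i j := by
    intro i j
    constructor
    · rintro ⟨h1, h2, h3⟩
      exact h3
    · intro h
      have h1 := Rl_lt hl _ _ h
      exact ⟨h1.trans h.1, h.1, h⟩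
  have hD : ∀ k, k < l.length → D e k = l.getD k 0 := by
    intro k hk
    apply Nat.eq_of_testBit_eq
    intro i
    rw [Bool.eq_iff_iff, D_testBit e he', hR]
    unfold Rl
    constructor
    · intro h; exact h.2
    · intro h; exact ⟨hk, h⟩
  have hJ : ∀ k, k ≤ l.length → Js e k = Jl l k := by
    intro k
    induction k with
    | zero => intro _; rfl
    | succ k ih =>
      intro hk
      change ext (Js e k) (D e k) k = ext (Jl l k) (l.getD k 0) k
      rw [ih (by omega), hD k (by omega)]
  refine ⟨Pt l, order l hl, inferInstance, ?_, ?_, ?_⟩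
  · rw [card2 e he', hJ _ le_rfl]
  · rw [card3 e he', hJ _ le_rfl]
  · rw [card4 e he', hJ _ le_rfl]

/-! evaluation -/

noncomputable def mem (D : ℕ) (J : RL) : Bool :=
  @RL.rec (fun _ => Bool) false (fun e _ _ _ ih => @Bool.rec (fun _ => Bool) ih true (Nat.beq e D)) J

noncomputable def len (J : RL) : ℕ := @RL.rec (fun _ => ℕ) 0 (fun _ _ _ _ ih => Nat.succ ih) J

noncomputable def runC (f : RL → Bool) (l : List ℕ) : ℕ → RL → Bool :=
  @List.rec ℕ (fun _ => ℕ → RL → Bool) (fun _ J => f J)
    (fun D _ ih p J => @Bool.rec (fun _ => Bool) false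
      (filt D J (fun T => mapT p T T (fun B => mapJ T B J (fun J' =>
        force (Nat.add p p) (fun p' => ih p' J'))))) (mem D J)) l

theorem mem_ofJ (J : List ℕ) (D : ℕ) (l : List ℕ) (h : mem D (ofJ J l) = true) : D ∈ l := by
  induction l with
  | nil => exact absurd h (by simp [mem, ofJ])
  | cons a l ih =>
    change @Bool.rec (fun _ => Bool) (mem D (ofJ J l)) true (Nat.beq a D) = true at h
    cases hb : Nat.beq a D
    · rw [hb] at h
      exact List.mem_cons_of_mem _ (ih h)
    · rw [Nat.eq_of_beq_eq_true hb]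
      exact List.mem_cons_self

theorem len_ofJ (J l : List ℕ) : len (ofJ J l) = l.length := by
  induction l with
  | nil => rfl
  | cons a l ih =>
    change Nat.succ (len (ofJ J l)) = _
    rw [ih]; rfl

theorem runC_sound (f : RL → Bool) (l : List ℕ) (suf : List ℕ) :
    ∀ k, l.drop k = suf → k ≤ l.length →
      runC f suf (2 ^ k) (ofJ (Jl l k) (Jl l k)) = true →
      (∀ k', k ≤ k' → k' < l.length → l.getD k' 0 ∈ Jl l k') ∧
      f (ofJ (Jl l l.length) (Jl l l.length)) = true := by
  induction suf with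
  | nil =>
    intro k hk hkl h
    have h1 : k = l.length := by
      have := List.drop_eq_nil_iff.1 hk
      omega
    subst h1
    exact ⟨fun k' h1 h2 => by omega, h⟩
  | cons D suf ih =>
    intro k hk hkl h
    have hk' : k < l.length := by
      by_contra hcon
      rw [List.drop_eq_nil_iff.2 (by omega)] at hk
      simp at hk
    have hD : l.getD k 0 = D := by
      have h1 := List.drop_eq_getElem_cons hk'
      rw [hk] at h1
      rw [List.getD_eq_getElem _ _ hk']
      simpa using (List.cons.inj h1).1.symm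
    have hsuf : l.drop (k + 1) = suf := by
      have h1 := List.drop_eq_getElem_cons hk'
      rw [hk] at h1
      exact (List.cons.inj h1).2.symm
    change @Bool.rec (fun _ => Bool) false _ (mem D (ofJ (Jl l k) (Jl l k))) = true at h
    cases hm : mem D (ofJ (Jl l k) (Jl l k))
    · rw [hm] at h
      exact absurd h (by simp)
    · rw [hm] at h
      change (filt D (ofJ (Jl l k) (Jl l k)) (fun T => mapT (2 ^ k) T T (fun B => mapJ T B
        (ofJ (Jl l k) (Jl l k)) (fun J' =>
        force (Nat.add (2 ^ k) (2 ^ k)) (fun p' => runC f suf p' J'))))) = true at h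
      rw [filt_ofJ, mapT_ofJ (Jl_lt l k) D _ (fun m hm => hm),
        mapJ_ofJ (Jl_lt l k) D _ _ (fun m hm => hm), force_eq] at h
      have hp : Nat.add (2 ^ k) (2 ^ k) = 2 ^ (k + 1) := by
        change 2 ^ k + 2 ^ k = _
        rw [pow_succ]; ring
      rw [hp] at h
      have hJ : ext (Jl l k) D k = Jl l (k + 1) := by
        change _ = ext (Jl l k) (l.getD k 0) k
        rw [hD]
      have h' : runC f suf (2 ^ (k + 1)) (ofJ (Jl l (k + 1)) (Jl l (k + 1))) = true := by
        rw [← hJ]; exact h
      obtain ⟨h1, h2⟩ := ih (k + 1) hsuf hk' h'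
      refine ⟨?_, h2⟩
      intro k' hk1 hk2
      rcases eq_or_lt_of_le hk1 with rfl | hk1
      · rw [hD]; exact mem_ofJ _ _ _ hm
      · exact h1 k' hk1 hk2

/-- test that the value is `n` -/
noncomputable def testV (n : ℕ) (l : List ℕ) : Bool :=
  runC (fun J => Nat.beq (s3 J) n) l 1 (RL.cons 0 1 1 RL.nil)

theorem testV_sound {n : ℕ} {l : List ℕ} (h : testV n l = true) :
    ∃ (P : Type) (_ : PartialOrder P) (_ : Finite P), Nat.card (P →o Fin 4) = n := by
  have h0 : (RL.cons 0 1 1 RL.nil) = ofJ (Jl l 0) (Jl l 0) := rfl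
  unfold testV at h
  rw [h0] at h
  obtain ⟨h1, h2⟩ := runC_sound _ l l 0 (by simp) (Nat.zero_le _) h
  obtain ⟨P, i1, i2, -, -, h3⟩ := exists_of_valid (l := l) (fun k hk => h1 k (Nat.zero_le _) hk)
  refine ⟨P, i1, i2, ?_⟩
  rw [h3]
  have h4 := Nat.eq_of_beq_eq_true h2
  rw [s3_ofJ] at h4
  exact h4

/-- test that the list realizes the parameters `s, a, b` -/
noncomputable def testR (s a b : ℕ) (l : List ℕ) : Bool :=
  runC (fun J => @Bool.rec (fun _ => Bool) false
    (@Bool.rec (fun _ => Bool) false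
      (Nat.beq (6 * s3 J + 6 * (a * (s + 1))) ((s + 3) * (s + 2) * (s + 1) + 6 * b))
      (Nat.beq (2 * s2 J + 2 * a) ((s + 2) * (s + 1) + 2 * (s + 1))))
    (Nat.beq (len J) (s + 1))) l 1 (RL.cons 0 1 1 RL.nil)

theorem testR_sound {s a b : ℕ} {l : List ℕ} (h : testR s a b l = true) : Real s a b := by
  have h0 : (RL.cons 0 1 1 RL.nil) = ofJ (Jl l 0) (Jl l 0) := rfl
  unfold testR at h
  rw [h0] at h
  obtain ⟨h1, h2⟩ := runC_sound _ l l 0 (by simp) (Nat.zero_le _) h
  obtain ⟨P, i1, i2, g1, g2, g3⟩ := exists_of_valid (l := l) (fun k hk => h1 k (Nat.zero_le _) hk)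
  rw [len_ofJ, s2_ofJ, s3_ofJ] at h2
  cases hb1 : Nat.beq (Jl l l.length).length (s + 1)
  · rw [hb1] at h2; exact absurd h2 (by simp)
  rw [hb1] at h2
  cases hb2 : Nat.beq (2 * (((Jl l l.length).map (dn (Jl l l.length))).sum +
      (Jl l l.length).length) + 2 * a) ((s + 2) * (s + 1) + 2 * (s + 1))
  · rw [hb2] at h2; exact absurd h2 (by simp)
  rw [hb2] at h2
  have e1 := Nat.eq_of_beq_eq_true hb1
  have e2 := Nat.eq_of_beq_eq_true hb2
  have e3 := Nat.eq_of_beq_eq_true h2
  refine ⟨P, i1, i2, ?_, ?_, ?_⟩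
  · rw [g1, e1]
  · rw [g2]
    change 2 * ((Jl l l.length).map (dn (Jl l l.length))).sum + 2 * a = _
    omega
  · rw [g3]
    exact e3

theorem Real.one : Real 1 0 0 := testR_sound (l := [0]) (by decide +kernel)

end Pool.Agent.Helper875.MonoI
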