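import Pool.Agent.Helper875.MonoI

/-!
Closure of a list of pieces under linear sums, computed with bit sets, and its soundness.
-/

namespace Pool.Agent.Helper875.MonoK

open Pool.Agent.Helper875.MonoC Pool.Agent.Helper875.MonoH Pool.Agent.Helper875.MonoI

/-- lists of naturals for evaluation -/
inductive NL : Type
  | nil : NL
  | cons : ℕ → NL → NL

noncomputable def getN (G : NL) : ℕ → ℕ :=
  @NL.rec (fun _ => ℕ → ℕ) (fun _ => 0)
    (fun x _ ih i => @Nat.rec (fun _ => ℕ) x (fun j _ => ih j) i) G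

@[simp] theorem getN_nil (i : ℕ) : getN NL.nil i = 0 := rfl
@[simp] theorem getN_zero (x : ℕ) (t : NL) : getN (NL.cons x t) 0 = x := rfl
@[simp] theorem getN_succ (x : ℕ) (t : NL) (i : ℕ) : getN (NL.cons x t) (i + 1) = getN t i := rfl

/-- union of the shifted sets -/
noncomputable def shifts (G : NL) (PL : List (ℕ × ℕ × ℕ × List ℕ)) : ℕ :=
  @List.rec (ℕ × ℕ × ℕ × List ℕ) (fun _ => ℕ) 0
    (fun x _ ih => Nat.lor ih (Nat.shiftLeft (getN G (Nat.pred x.1))
      (Nat.add (Nat.mul x.2.1 1024) x.2.2.1))) PL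

noncomputable def stepF (PL : List (ℕ × ℕ × ℕ × List ℕ)) (A : ℕ) (G : NL) : ℕ :=
  Nat.mod (Nat.lor (getN G 0) (shifts G PL)) (Nat.pow 2 (Nat.mul A 1024))

/-- run `fuel` closure steps -/
noncomputable def iter (PL : List (ℕ × ℕ × ℕ × List ℕ)) (A : ℕ) (k : NL → Bool) (fuel : ℕ) :
    NL → Bool :=
  @Nat.rec (fun _ => NL → Bool) k
    (fun _ ih G => force (stepF PL A G) (fun x => ih (NL.cons x G))) fuel

/-- the pieces are realized by ordered sets -/
def GoodPL (PL : List (ℕ × ℕ × ℕ × List ℕ)) : Prop :=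
  ∀ x ∈ PL, 0 < x.1 ∧ x.2.2.1 ≤ 9 * x.2.1 ∧ Real x.1 x.2.1 x.2.2.1

/-- invariant of the list of closure sets -/
def GoodNL (A s : ℕ) (G : NL) : Prop :=
  ∀ i j, (getN G i).testBit j = true → i ≤ s ∧ ∃ a b, j = a * 1024 + b ∧ b ≤ 9 * a ∧ a < A ∧
    Real (s - i) a b

theorem Real.addOne {s a b : ℕ} (h : Real s a b) : Real (s + 1) a b := by
  have := h.add Real.one
  simpa using this

theorem Real.mono {s t a b : ℕ} (h : Real s a b) (hst : s ≤ t) : Real t a b := by
  induction t, hst using Nat.le_induction with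
  | base => exact h
  | succ t _ ih => exact Real.addOne ih

theorem shifts_sound {PL : List (ℕ × ℕ × ℕ × List ℕ)} (hPL : GoodPL PL) {A s : ℕ} {G : NL}
    (hG : GoodNL A s G) (j : ℕ) (h : (shifts G PL).testBit j = true) :
    ∃ a b, j = a * 1024 + b ∧ b ≤ 9 * a ∧ Real (s + 1) a b := by
  induction PL with
  | nil =>
    change (0 : ℕ).testBit j = true at h
    simp at h
  | cons x PL ih =>
    change ((shifts G PL) ||| ((getN G (x.1.pred)) <<< (x.2.1 * 1024 + x.2.2.1))).testBit j
      = true at h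
    rw [Nat.testBit_lor, Bool.or_eq_true] at h
    rcases h with h | h
    · exact ih (fun y hy => hPL y (List.mem_cons_of_mem _ hy)) h
    · rw [Nat.testBit_shiftLeft, Bool.and_eq_true] at h
      obtain ⟨h1, h2⟩ := h
      have h1' : x.2.1 * 1024 + x.2.2.1 ≤ j := by simpa using h1
      obtain ⟨h3, a, b, h4, h5, h6, h7⟩ := hG _ _ h2
      obtain ⟨g1, g2, g3⟩ := hPL x List.mem_cons_self
      refine ⟨a + x.2.1, b + x.2.2.1, by omega, by omega, ?_⟩
      have h8 := h7.add g3
      have h9 : s - x.1.pred + x.1 = s + 1 := by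
        rw [Nat.pred_eq_sub_one] at h3 ⊢
        omega
      rw [h9] at h8
      exact h8

theorem stepF_sound {PL : List (ℕ × ℕ × ℕ × List ℕ)} (hPL : GoodPL PL) {A s : ℕ} {G : NL}
    (hG : GoodNL A s G) : GoodNL A (s + 1) (NL.cons (stepF PL A G) G) := by
  intro i j h
  cases i with
  | zero =>
    rw [getN_zero] at h
    refine ⟨Nat.zero_le _, ?_⟩
    change (((getN G 0) ||| (shifts G PL)) % 2 ^ (A * 1024)).testBit j = true at h
    rw [Nat.testBit_mod_two_pow, Bool.and_eq_true, Nat.testBit_lor, Bool.or_eq_true] at h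
    obtain ⟨h1, h2⟩ := h
    have h1' : j < A * 1024 := by simpa using h1
    have h3 : ∃ a b, j = a * 1024 + b ∧ b ≤ 9 * a ∧ Real (s + 1) a b := by
      rcases h2 with h2 | h2
      · obtain ⟨-, a, b, h4, h5, -, h7⟩ := hG _ _ h2
        exact ⟨a, b, h4, h5, Real.addOne h7⟩
      · exact shifts_sound hPL hG j h2
    obtain ⟨a, b, h4, h5, h6⟩ := h3
    exact ⟨a, b, h4, h5, by omega, h6⟩
  | succ i =>
    rw [getN_succ] at h
    obtain ⟨h3, a, b, h4, h5, h6, h7⟩ := hG _ _ h
    refine ⟨by omega, a, b, h4, h5, h6, ?_⟩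
    rw [Nat.add_sub_add_right]
    exact h7

theorem iter_sound {PL : List (ℕ × ℕ × ℕ × List ℕ)} (hPL : GoodPL PL) {A : ℕ} (k : NL → Bool)
    (fuel : ℕ) : ∀ (s : ℕ) (G : NL), GoodNL A s G → iter PL A k fuel G = true →
      ∃ G', GoodNL A (s + fuel) G' ∧ k G' = true := by
  induction fuel with
  | zero => intro s G hG h; exact ⟨G, hG, h⟩
  | succ fuel ih =>
    intro s G hG h
    change force (stepF PL A G) (fun x => iter PL A k fuel (NL.cons x G)) = true at h
    rw [force_eq] at h
    obtain ⟨G', h1, h2⟩ := ih (s + 1) _ (stepF_sound hPL hG) h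
    refine ⟨G', ?_, h2⟩
    rw [show s + (fuel + 1) = s + 1 + fuel by ring]
    exact h1

theorem Real.zero : Real 0 0 0 := by
  refine ⟨PEmpty, inferInstance, inferInstance, ?_, ?_, ?_⟩
  · have : Unique (PEmpty.{1} →o Fin 2) :=
      ⟨⟨⟨fun x => x.elim, fun x => x.elim⟩⟩, fun f => by ext x; exact x.elim⟩
    rw [Nat.card_unique]
  · have : Unique (PEmpty.{1} →o Fin 3) :=
      ⟨⟨⟨fun x => x.elim, fun x => x.elim⟩⟩, fun f => by ext x; exact x.elim⟩
    rw [Nat.card_unique]
  · have : Unique (PEmpty.{1} →o Fin 4) :=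
      ⟨⟨⟨fun x => x.elim, fun x => x.elim⟩⟩, fun f => by ext x; exact x.elim⟩
    rw [Nat.card_unique]

theorem goodNL_init {A : ℕ} (hA : 0 < A) : GoodNL A 0 (NL.cons 1 NL.nil) := by
  intro i j h
  cases i with
  | zero =>
    rw [getN_zero] at h
    have hj : j = 0 := by
      by_contra hj
      have : (1 : ℕ).testBit j = false := by
        apply Nat.testBit_lt_two_pow
        calc 1 < 2 ^ 1 := by norm_num
          _ ≤ 2 ^ j := Nat.pow_le_pow_right (by norm_num) (by omega)
      rw [this] at h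
      simp at h
    subst hj
    exact ⟨le_rfl, 0, 0, by norm_num, by norm_num, hA, Real.zero⟩
  | succ i =>
    rw [getN_succ, getN_nil] at h
    simp at h

/-- the value `|4^P|` attached to parameters -/
theorem Real.value {s a b n : ℕ} (h : Real s a b)
    (hn : 6 * n + 6 * (a * (s + 1)) = (s + 3) * (s + 2) * (s + 1) + 6 * b) :
    ∃ (P : Type) (_ : PartialOrder P) (_ : Finite P), Nat.card (P →o Fin 4) = n := by
  obtain ⟨P, i1, i2, -, -, h3⟩ := h
  exact ⟨P, i1, i2, by omega⟩

/-- Horner style union of the rows of a closure set -/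
noncomputable def hor (s F : ℕ) (a : ℕ) : ℕ :=
  @Nat.rec (fun _ => ℕ) (Nat.mod F (Nat.pow 2 1024))
    (fun a ih => Nat.lor (Nat.shiftLeft ih (Nat.succ s))
      (Nat.mod (Nat.shiftRight F (Nat.mul (Nat.succ a) 1024)) (Nat.pow 2 1024))) a

theorem testBit_mod_shift {F x j : ℕ} (h : ((F >>> x) % 2 ^ 1024).testBit j = true) :
    j < 1024 ∧ F.testBit (x + j) = true := by
  rw [Nat.testBit_mod_two_pow, Bool.and_eq_true, Nat.testBit_shiftRight] at h
  exact ⟨by simpa using h.1, h.2⟩

theorem hor_sound (s F : ℕ) (a : ℕ) : ∀ i, (hor s F a).testBit i = true →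
    ∃ a' b, a' ≤ a ∧ b < 1024 ∧ i = (a - a') * (s + 1) + b ∧ F.testBit (a' * 1024 + b) = true := by
  induction a with
  | zero =>
    intro i h
    change (F % 2 ^ 1024).testBit i = true at h
    have h' : ((F >>> 0) % 2 ^ 1024).testBit i = true := by rw [Nat.shiftRight_zero]; exact h
    obtain ⟨h1, h2⟩ := testBit_mod_shift h'
    exact ⟨0, i, le_rfl, h1, by simp, by simpa using h2⟩
  | succ a ih =>
    intro i h
    change ((hor s F a) <<< (s + 1) ||| ((F >>> ((a + 1) * 1024)) % 2 ^ 1024)).testBit i = true at h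
    rw [Nat.testBit_lor, Bool.or_eq_true] at h
    rcases h with h | h
    · rw [Nat.testBit_shiftLeft, Bool.and_eq_true] at h
      obtain ⟨h1, h2⟩ := h
      have h1' : s + 1 ≤ i := by simpa using h1
      obtain ⟨a', b, h3, h4, h5, h6⟩ := ih _ h2
      refine ⟨a', b, by omega, h4, ?_, h6⟩
      have h7 : a + 1 - a' = (a - a') + 1 := by omega
      rw [h7, add_mul, one_mul]
      omega
    · obtain ⟨h1, h2⟩ := testBit_mod_shift h
      exact ⟨a + 1, i, le_rfl, h1, by simp, h2⟩

/-- union over all closure sets in the list of the sets of values; `s` is the index of the head -/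
noncomputable def vals (A : ℕ) (G : NL) : ℕ → ℕ :=
  @NL.rec (fun _ => ℕ → ℕ) (fun _ => 0)
    (fun x _ ih s => Nat.lor (Nat.shiftLeft
      (hor s x (Nat.min (Nat.pred A) (Nat.div (Nat.mul (s + 3) (s + 2)) 6)))
      (Nat.sub (Nat.div (Nat.mul (Nat.mul (s + 3) (s + 2)) (s + 1)) 6)
        (Nat.mul (Nat.min (Nat.pred A) (Nat.div (Nat.mul (s + 3) (s + 2)) 6)) (s + 1))))
      (ih (Nat.pred s))) G

theorem six_dvd (s : ℕ) : 6 ∣ (s + 3) * (s + 2) * (s + 1) := by
  have h := Nat.factorial_dvd_ascFactorial (s + 1) 3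
  have h2 : (s + 1).ascFactorial 3 = (s + 3) * (s + 2) * (s + 1) := by
    simp [Nat.ascFactorial]; ring
  rw [h2] at h
  exact h

theorem vals_sound {A : ℕ} (hA : 9 * A ≤ 1032) (G : NL) : ∀ (s : ℕ), GoodNL A s G →
    ∀ n, (vals A G s).testBit n = true →
    ∃ (P : Type) (_ : PartialOrder P) (_ : Finite P), Nat.card (P →o Fin 4) = n := by
  induction G with
  | nil =>
    intro s _ n h
    change (0 : ℕ).testBit n = true at h
    simp at h
  | cons x G ih =>
    intro s hG n h
    set m := min (A.pred) ((s + 3) * (s + 2) / 6) with hm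
    change (((hor s x m) <<< ((s + 3) * (s + 2) * (s + 1) / 6 - m * (s + 1))) |||
      (vals A G (s.pred))).testBit n = true at h
    rw [Nat.testBit_lor, Bool.or_eq_true] at h
    rcases h with h | h
    · rw [Nat.testBit_shiftLeft, Bool.and_eq_true] at h
      obtain ⟨h1, h2⟩ := h
      have h1' : (s + 3) * (s + 2) * (s + 1) / 6 - m * (s + 1) ≤ n := by simpa using h1
      obtain ⟨a', b, h3, h4, h5, h6⟩ := hor_sound _ _ _ _ h2
      have h7 := hG 0 (a' * 1024 + b) (by rw [getN_zero]; exact h6)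
      obtain ⟨-, a, b', h8, h9, h10, h11⟩ := h7
      have h12 : a = a' := by omega
      subst h12
      have h13 : b' = b := by omega
      subst h13
      rw [Nat.sub_zero] at h11
      have h14 : m * (s + 1) ≤ (s + 3) * (s + 2) * (s + 1) / 6 := by
        have h15 : m ≤ (s + 3) * (s + 2) / 6 := min_le_right _ _
        have h16 : m * 6 ≤ (s + 3) * (s + 2) := by omega
        rw [Nat.le_div_iff_mul_le (by norm_num)]
        calc m * (s + 1) * 6 = (m * 6) * (s + 1) := by ring
          _ ≤ (s + 3) * (s + 2) * (s + 1) := Nat.mul_le_mul_right _ h16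
      have h17 : n = (s + 3) * (s + 2) * (s + 1) / 6 - m * (s + 1) + ((m - a) * (s + 1) + b') := by
        omega
      have h18 : (m - a) * (s + 1) + a * (s + 1) = m * (s + 1) := by
        rw [← add_mul]; congr 1; omega
      have h19 : n + a * (s + 1) = (s + 3) * (s + 2) * (s + 1) / 6 + b' := by omega
      apply Real.value h11
      obtain ⟨q, hq⟩ := six_dvd s
      have h20 : (s + 3) * (s + 2) * (s + 1) / 6 = q := by rw [hq]; simp
      rw [h20] at h19
      rw [hq]
      omega
    · apply ih s.pred _ n h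
      intro i j hij
      have h3 := hG (i + 1) j (by rw [getN_succ]; exact hij)
      obtain ⟨h4, a, b, h5, h6, h7, h8⟩ := h3
      rw [Nat.pred_eq_sub_one]
      refine ⟨by omega, a, b, h5, h6, h7, ?_⟩
      rw [show s - 1 - i = s - (i + 1) by omega]
      exact h8

end Pool.Agent.Helper875.MonoK
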