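import Pool.Agent.Helper875.MonoK
import Pool.Agent.Helper875.MonoF

/-!
Explicit ordered sets: pieces for linear sums, and single examples.
-/

set_option maxRecDepth 100000

namespace Pool.Agent.Helper875.MonoP

open Pool.Agent.Helper875.MonoC Pool.Agent.Helper875.MonoH Pool.Agent.Helper875.MonoI
  Pool.Agent.Helper875.MonoK

/-- pieces used for small values: parameters and list of predecessor masks -/
def pieces1 : List (ℕ × ℕ × ℕ × List ℕ) :=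
  [(3, 1, 0, [0, 0]),
   (5, 3, 2, [0, 0, 1]),
   (7, 5, 5, [0, 0, 1, 3]),
   (7, 6, 8, [0, 0, 1, 5]),
   (7, 9, 16, [0, 0, 0]),
   (8, 9, 16, [0, 0, 1, 2]),
   (9, 7, 8, [0, 0, 1, 3, 7]),
   (9, 8, 12, [0, 0, 1, 3, 11]),
   (9, 10, 20, [0, 0, 1, 5, 13]),
   (9, 13, 30, [0, 0, 0, 3]),
   (10, 12, 25, [0, 0, 1, 2, 7]),
   (11, 9, 11, [0, 0, 1, 3, 7, 15]),
   (11, 10, 15, [0, 0, 1, 3, 7, 23]),
   (11, 10, 16, [0, 0, 1, 3, 11, 15]),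
   (11, 11, 20, [0, 0, 1, 5, 7, 23]),
   (11, 12, 25, [0, 0, 1, 3, 11, 27]),
   (11, 15, 35, [0, 0, 0, 3, 7]),
   (11, 15, 40, [0, 0, 1, 5, 13, 29]),
   (11, 17, 46, [0, 0, 1, 1, 7]),
   (11, 18, 52, [0, 0, 0, 3, 11]),
   (11, 24, 84, [0, 0, 0, 1]),
   (12, 14, 29, [0, 0, 1, 2, 7, 15]),
   (12, 15, 34, [0, 0, 1, 3, 5, 23]),
   (12, 15, 35, [0, 0, 1, 3, 5, 15]),
   (12, 16, 40, [0, 0, 1, 2, 7, 23]),
   (12, 21, 64, [0, 0, 0, 3, 5]),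
   (13, 17, 38, [0, 0, 0, 3, 7, 15]),
   (13, 18, 44, [0, 0, 0, 3, 7, 23]),
   (13, 19, 50, [0, 0, 1, 2, 7, 11]),
   (13, 19, 51, [0, 0, 1, 1, 7, 15]),
   (13, 20, 58, [0, 0, 0, 3, 11, 15]),
   (13, 21, 64, [0, 0, 1, 2, 5, 15]),
   (13, 21, 70, [0, 0, 2, 6, 14, 30, 62]),
   (13, 22, 70, [0, 0, 1, 1, 7, 23]),
   (13, 24, 84, [0, 0, 0, 3, 11, 27]),
   (13, 27, 98, [0, 0, 0, 3, 3]),
   (13, 28, 105, [0, 0, 0, 1, 7]),
   (13, 30, 120, [0, 0, 0, 1, 11]),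
   (14, 24, 75, [0, 0, 0, 3, 5, 15]),
   (14, 25, 82, [0, 0, 1, 1, 7, 11]),
   (14, 26, 90, [0, 0, 1, 1, 7, 13]),
   (14, 27, 97, [0, 0, 1, 2, 5, 11]),
   (14, 30, 120, [0, 0, 1, 2, 5, 21]),
   (14, 36, 160, [0, 0, 0, 1, 6]),
   (15, 25, 69, [0, 0, 0, 3, 7, 7]),
   (15, 28, 112, [0, 0, 2, 6, 14, 30, 62, 126]),
   (15, 30, 110, [0, 0, 0, 1, 7, 15]),
   (15, 31, 118, [0, 0, 0, 3, 3, 15]),
   (15, 32, 126, [0, 0, 0, 3, 5, 11]),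
   (15, 32, 127, [0, 0, 0, 1, 11, 15]),
   (15, 33, 134, [0, 0, 0, 1, 7, 23]),
   (15, 34, 143, [0, 0, 1, 1, 3, 23]),
   (15, 34, 144, [0, 0, 0, 3, 3, 27]),
   (15, 36, 159, [0, 0, 1, 1, 5, 23]),
   (15, 36, 160, [0, 0, 1, 2, 5, 10]),
   (15, 37, 168, [0, 0, 0, 1, 11, 27]),
   (15, 43, 212, [0, 0, 0, 1, 3]),
   (15, 46, 240, [0, 0, 0, 1, 9]),
   (15, 55, 320, [0, 0, 0, 0]),
   (16, 33, 120, [0, 0, 0, 3, 5, 7]),
   (16, 38, 165, [0, 0, 0, 1, 7, 11]),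
   (16, 39, 175, [0, 0, 0, 1, 6, 15]),
   (16, 40, 184, [0, 0, 0, 1, 11, 13]),
   (16, 41, 193, [0, 0, 0, 1, 6, 23]),
   (16, 42, 202, [0, 0, 1, 1, 2, 23]),
   (17, 36, 168, [0, 0, 2, 6, 14, 30, 62, 126, 254]),
   (17, 42, 187, [0, 0, 0, 1, 7, 7]),
   (17, 47, 237, [0, 0, 0, 1, 3, 15]),
   (17, 48, 247, [0, 0, 0, 1, 6, 11]),
   (17, 48, 248, [0, 0, 0, 1, 11, 11]),
   (17, 49, 257, [0, 0, 0, 1, 3, 23]),
   (17, 50, 268, [0, 0, 0, 1, 9, 15]),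
   (17, 51, 278, [0, 0, 0, 1, 3, 27]),
   (17, 54, 308, [0, 0, 0, 1, 9, 27]),
   (17, 63, 394, [0, 0, 0, 0, 7]),
   (18, 52, 272, [0, 0, 0, 1, 6, 7]),
   (18, 57, 326, [0, 0, 0, 1, 3, 13]),
   (18, 58, 337, [0, 0, 0, 1, 9, 7]),
   (19, 45, 240, [0, 0, 2, 6, 14, 30, 62, 126, 254, 510]),
   (19, 62, 364, [0, 0, 0, 1, 3, 7]),
   (19, 65, 403, [0, 0, 0, 0, 7, 15]),
   (19, 66, 412, [0, 0, 0, 1, 3, 11]),
   (19, 69, 448, [0, 0, 0, 1, 2, 15]),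
   (19, 70, 460, [0, 0, 0, 1, 6, 9]),
   (19, 71, 472, [0, 0, 1, 1, 1, 15]),
   (19, 72, 484, [0, 0, 0, 0, 7, 23]),
   (19, 75, 520, [0, 0, 0, 1, 9, 25]),
   (19, 84, 620, [0, 0, 0, 0, 3]),
   (20, 74, 490, [0, 0, 0, 1, 3, 6]),
   (20, 75, 504, [0, 0, 0, 0, 7, 11]),
   (20, 81, 580, [0, 0, 0, 1, 2, 13]),
   (21, 55, 330, [0, 0, 2, 6, 14, 30, 62, 126, 254, 510, 1022]),
   (21, 85, 614, [0, 0, 0, 0, 7, 7]),
   (21, 86, 625, [0, 0, 0, 1, 2, 7]),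
   (21, 88, 655, [0, 0, 0, 0, 3, 15]),
   (21, 91, 694, [0, 0, 0, 1, 2, 11]),
   (21, 92, 708, [0, 0, 0, 1, 1, 15]),
   (21, 94, 736, [0, 0, 0, 0, 3, 23]),
   (22, 100, 800, [0, 0, 0, 0, 3, 13]),
   (23, 66, 440, [0, 0, 2, 6, 14, 30, 62, 126, 254, 510, 1022, 2046]),
   (23, 111, 940, [0, 0, 0, 0, 3, 7]),
   (25, 78, 572, [0, 0, 2, 6, 14, 30, 62, 126, 254, 510, 1022, 2046, 4094]),
   (27, 91, 728, [0, 0, 2, 6, 14, 30, 62, 126, 254, 510, 1022, 2046, 4094, 8190]),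
   (29, 105, 910, [0, 0, 2, 6, 14, 30, 62, 126, 254, 510, 1022, 2046, 4094, 8190, 16382])]

/-- pieces used for large values -/
def pieces2 : List (ℕ × ℕ × ℕ × List ℕ) :=
  [(3, 1, 0, [0, 0]),
   (5, 3, 2, [0, 0, 1]),
   (7, 5, 5, [0, 0, 1, 3]),
   (7, 6, 8, [0, 0, 1, 5]),
   (7, 9, 16, [0, 0, 0]),
   (8, 9, 16, [0, 0, 1, 2]),
   (9, 7, 8, [0, 0, 1, 3, 7]),
   (9, 8, 12, [0, 0, 1, 3, 11]),
   (9, 10, 20, [0, 0, 1, 5, 13]),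
   (9, 13, 30, [0, 0, 0, 3]),
   (10, 12, 25, [0, 0, 1, 2, 7]),
   (11, 9, 11, [0, 0, 1, 3, 7, 15]),
   (11, 10, 15, [0, 0, 1, 3, 7, 23]),
   (11, 10, 16, [0, 0, 1, 3, 11, 15]),
   (11, 11, 20, [0, 0, 1, 5, 7, 23]),
   (11, 12, 25, [0, 0, 1, 3, 11, 27]),
   (11, 15, 35, [0, 0, 0, 3, 7]),
   (11, 15, 40, [0, 0, 1, 5, 13, 29]),
   (11, 17, 46, [0, 0, 1, 1, 7]),
   (11, 18, 52, [0, 0, 0, 3, 11]),
   (11, 24, 84, [0, 0, 0, 1]),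
   (12, 21, 64, [0, 0, 0, 3, 5]),
   (13, 21, 70, [0, 0, 2, 6, 14, 30, 62]),
   (13, 27, 98, [0, 0, 0, 3, 3]),
   (13, 28, 105, [0, 0, 0, 1, 7]),
   (13, 30, 120, [0, 0, 0, 1, 11]),
   (14, 36, 160, [0, 0, 0, 1, 6]),
   (15, 28, 112, [0, 0, 2, 6, 14, 30, 62, 126]),
   (15, 43, 212, [0, 0, 0, 1, 3]),
   (15, 46, 240, [0, 0, 0, 1, 9]),
   (15, 55, 320, [0, 0, 0, 0]),
   (17, 36, 168, [0, 0, 2, 6, 14, 30, 62, 126, 254]),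
   (17, 63, 394, [0, 0, 0, 0, 7]),
   (19, 45, 240, [0, 0, 2, 6, 14, 30, 62, 126, 254, 510]),
   (19, 84, 620, [0, 0, 0, 0, 3]),
   (21, 55, 330, [0, 0, 2, 6, 14, 30, 62, 126, 254, 510, 1022]),
   (23, 66, 440, [0, 0, 2, 6, 14, 30, 62, 126, 254, 510, 1022, 2046]),
   (25, 78, 572, [0, 0, 2, 6, 14, 30, 62, 126, 254, 510, 1022, 2046, 4094]),
   (27, 91, 728, [0, 0, 2, 6, 14, 30, 62, 126, 254, 510, 1022, 2046, 4094, 8190]),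
   (29, 105, 910, [0, 0, 2, 6, 14, 30, 62, 126, 254, 510, 1022, 2046, 4094, 8190, 16382])]

/-- single examples: value and list of predecessor masks -/
def extras : List (ℕ × List ℕ) :=
  [(256, [0, 0, 0, 0]),
   (402, [0, 0, 2, 6, 7, 23, 31]),
   (411, [0, 0, 2, 3, 11, 15, 31]),
   (428, [0, 0, 2, 6, 14, 30, 15]),
   (448, [0, 0, 0, 6, 14, 30, 62]),
   (464, [0, 0, 2, 6, 3, 23, 31]),
   (509, [0, 0, 2, 6, 7, 23, 31, 127]),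
   (519, [0, 0, 2, 3, 11, 15, 31, 127]),
   (536, [0, 0, 2, 3, 3, 23, 31]),
   (543, [0, 0, 2, 6, 14, 1, 47]),
   (553, [0, 0, 0, 6, 7, 15, 31]),
   (570, [0, 0, 0, 6, 14, 30, 62, 127]),
   (576, [0, 0, 2, 2, 10, 27, 59]),
   (577, [0, 0, 2, 2, 14, 11, 31]),
   (585, [0, 0, 0, 6, 5, 23, 55]),
   (588, [0, 0, 0, 6, 6, 30, 62]),
   (589, [0, 0, 2, 1, 3, 27, 31]),
   (593, [0, 0, 2, 3, 11, 27, 31, 63]),
   (597, [0, 0, 0, 6, 14, 7, 47]),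
   (601, [0, 0, 2, 6, 7, 15, 31, 95]),
   (602, [0, 0, 2, 6, 7, 15, 47, 63]),
   (615, [0, 0, 2, 6, 14, 3, 31, 127]),
   (618, [0, 0, 0, 6, 14, 30, 31, 127]),
   (624, [0, 0, 0, 6, 14, 30, 62, 126]),
   (625, [0, 0, 2, 3, 7, 15, 31, 63]),
   (629, [0, 0, 2, 2, 3, 15, 47]),
   (646, [0, 0, 0, 6, 14, 15, 47, 127]),
   (647, [0, 0, 2, 1, 11, 27, 59, 63]),
   (658, [0, 0, 0, 4, 14, 15, 31]),
   (663, [0, 0, 2, 6, 14, 15, 47, 31]),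
   (669, [0, 0, 0, 6, 6, 23, 31]),
   (673, [0, 0, 0, 4, 3, 23, 55]),
   (675, [0, 0, 2, 6, 3, 15, 31, 95]),
   (681, [0, 0, 2, 6, 14, 1, 47, 127]),
   (685, [0, 0, 2, 6, 7, 15, 47, 31]),
   (689, [0, 0, 2, 3, 11, 7, 47, 63]),
   (692, [0, 0, 0, 0, 12, 30]),
   (694, [0, 0, 0, 6, 14, 15, 15]),
   (703, [0, 0, 0, 6, 7, 7, 47]),
   (711, [0, 0, 2, 2, 11, 27, 59, 63]),
   (727, [0, 0, 0, 4, 14, 7, 31]),
   (730, [0, 0, 0, 4, 3, 15, 31]),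
   (742, [0, 0, 2, 6, 3, 19, 55, 63]),
   (745, [0, 0, 2, 2, 10, 14, 31]),
   (746, [0, 0, 0, 4, 7, 23, 15]),
   (747, [0, 0, 0, 6, 6, 23, 15]),
   (750, [0, 0, 2, 6, 6, 23, 31, 63]),
   (755, [0, 0, 2, 6, 7, 23, 31, 127, 127]),
   (758, [0, 0, 0, 6, 14, 15, 31, 95]),
   (763, [0, 0, 2, 2, 10, 15, 47, 127]),
   (767, [0, 0, 0, 4, 6, 30, 31]),
   (769, [0, 0, 0, 6, 7, 23, 15, 127]),
   (771, [0, 0, 0, 4, 14, 3, 31]),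
   (775, [0, 0, 0, 6, 6, 22, 31]),
   (779, [0, 0, 0, 4, 14, 30, 7]),
   (780, [0, 0, 2, 1, 11, 15, 47, 31]),
   (782, [0, 0, 0, 4, 14, 3, 47]),
   (793, [0, 0, 0, 6, 7, 15, 47, 63]),
   (794, [0, 0, 2, 2, 10, 15, 31, 127]),
   (804, [0, 0, 2, 6, 6, 22, 55, 119]),
   (807, [0, 0, 2, 6, 14, 30, 15, 127, 127]),
   (812, [0, 0, 0, 0, 14, 30, 62]),
   (813, [0, 0, 2, 6, 14, 15, 47, 31, 255]),
   (835, [0, 0, 0, 4, 7, 15, 31, 127]),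
   (839, [0, 0, 0, 4, 14, 30, 62, 63]),
   (843, [0, 0, 2, 2, 1, 11, 31]),
   (846, [0, 0, 0, 6, 14, 30, 5, 127]),
   (847, [0, 0, 2, 2, 14, 11, 47, 63]),
   (856, [0, 0, 2, 6, 6, 30, 62, 23]),
   (857, [0, 0, 0, 4, 4, 7]),
   (863, [0, 0, 0, 4, 6, 30, 15]),
   (867, [0, 0, 0, 6, 14, 7, 31, 63]),
   (873, [0, 0, 0, 6, 6, 30, 62, 63]),
   (877, [0, 0, 0, 4, 14, 30, 15, 127]),
   (879, [0, 0, 0, 4, 3, 23, 31, 127]),
   (881, [0, 0, 0, 4, 3, 23, 23]),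
   (883, [0, 0, 2, 2, 11, 27, 59, 127, 127]),
   (888, [0, 0, 0, 4, 14, 30, 31, 95]),
   (906, [0, 0, 2, 2, 11, 11, 47, 111]),
   (911, [0, 0, 0, 6, 14, 14, 47, 63]),
   (912, [0, 0, 2, 2, 1, 19, 15]),
   (916, [0, 0, 2, 6, 3, 19, 31, 63, 255]),
   (919, [0, 0, 2, 6, 14, 3, 47, 127, 127]),
   (921, [0, 0, 0, 6, 14, 30, 7, 95]),
   (929, [0, 0, 2, 2, 10, 27, 7, 127]),
   (932, [0, 0, 0, 4, 6, 13, 23]),
   (933, [0, 0, 0, 4, 3, 19, 31, 127]),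
   (941, [0, 0, 0, 4, 6, 7, 47]),
   (961, [0, 0, 0, 4, 6, 7, 31]),
   (966, [0, 0, 0, 6, 6, 23, 31, 63]),
   (967, [0, 0, 2, 6, 14, 1, 39, 31]),
   (981, [0, 0, 2, 2, 10, 27, 59, 31]),
   (987, [0, 0, 0, 4, 3, 3, 55]),
   (991, [0, 0, 0, 4, 3, 23, 15, 127]),
   (992, [0, 0, 0, 6, 6, 7, 55, 127]),
   (993, [0, 0, 2, 2, 10, 14, 27, 127]),
   (996, [0, 0, 0, 4, 12, 30, 62, 63]),
   (1009, [0, 0, 0, 4, 6, 15, 15]),
   (1012, [0, 0, 0, 4, 7, 7, 47, 127]),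
   (1029, [0, 0, 0, 4, 12, 6, 47]),
   (1031, [0, 0, 0, 6, 7, 15, 31, 31]),
   (1033, [0, 0, 0, 6, 5, 7, 55, 119]),
   (1043, [0, 0, 0, 0, 12, 30, 31]),
   (1044, [0, 0, 2, 2, 10, 14, 31, 95]),
   (1046, [0, 0, 0, 4, 6, 22, 13]),
   (1048, [0, 0, 0, 4, 2, 22, 31]),
   (1057, [0, 0, 0, 4, 6, 30, 15, 127]),
   (1062, [0, 0, 0, 6, 5, 23, 31, 63, 255]),
   (1067, [0, 0, 0, 4, 3, 23, 31, 127, 255]),
   (1071, [0, 0, 0, 4, 6, 13, 15]),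
   (1073, [0, 0, 0, 4, 14, 3, 31, 95]),
   (1081, [0, 0, 2, 2, 10, 11, 47, 63]),
   (1083, [0, 0, 0, 6, 7, 15, 47, 111, 127]),
   (1087, [0, 0, 2, 2, 3, 11, 31, 95]),
   (1107, [0, 0, 0, 4, 12, 6, 39]),
   (1119, [0, 0, 0, 6, 14, 14, 15, 63]),
   (1121, [0, 0, 0, 0, 12, 30, 29]),
   (1123, [0, 0, 0, 4, 14, 14, 3]),
   (1142, [0, 0, 0, 4, 6, 14, 15]),
   (1149, [0, 0, 0, 4, 6, 7, 47, 127]),
   (1157, [0, 0, 0, 4, 4, 23, 15]),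
   (1159, [0, 0, 0, 4, 7, 15, 47, 63, 255]),
   (1172, [0, 0, 0, 0, 12, 30, 62, 127]),
   (1173, [0, 0, 0, 4, 14, 7, 47, 31]),
   (1187, [0, 0, 0, 0, 14, 30, 62, 63]),
   (1189, [0, 0, 0, 4, 2, 5, 47]),
   (1209, [0, 0, 2, 2, 1, 11, 31, 63]),
   (1214, [0, 0, 0, 4, 12, 3, 47, 111]),
   (1229, [0, 0, 2, 2, 1, 17, 59, 63]),
   (1239, [0, 0, 0, 4, 4, 3, 55]),
   (1242, [0, 0, 0, 4, 6, 13, 7]),
   (1257, [0, 0, 0, 4, 12, 6, 47, 127]),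
   (1263, [0, 0, 0, 4, 2, 13, 47, 111]),
   (1266, [0, 0, 0, 4, 4, 22, 63, 127]),
   (1271, [0, 0, 0, 4, 12, 3, 31, 63]),
   (1283, [0, 0, 2, 2, 2, 18, 31]),
   (1284, [0, 0, 2, 2, 2, 26, 59, 123]),
   (1326, [0, 0, 0, 0, 14, 13, 15]),
   (1349, [0, 0, 0, 0, 8, 30, 31]),
   (1359, [0, 0, 0, 4, 12, 28, 30, 95]),
   (1411, [0, 0, 0, 4, 2, 30, 7, 127]),
   (1417, [0, 0, 0, 0, 12, 11, 31, 127]),
   (1468, [0, 0, 0, 0, 12, 10, 29]),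
   (1503, [0, 0, 0, 4, 12, 30, 15, 31]),
   (1509, [0, 0, 0, 0, 12, 30, 11, 127]),
   (1517, [0, 0, 0, 0, 8, 7, 63, 127]),
   (1519, [0, 0, 0, 4, 4, 3, 23]),
   (1526, [0, 0, 0, 4, 14, 14, 13, 127, 255]),
   (1538, [0, 0, 0, 0, 14, 30, 62, 126, 127]),
   (1557, [0, 0, 0, 0, 14, 14, 47, 63]),
   (1559, [0, 0, 0, 4, 4, 20, 15]),
   (1574, [0, 0, 0, 4, 2, 22, 15, 95]),
   (1579, [0, 0, 0, 4, 12, 2, 35, 127]),
   (1627, [0, 0, 0, 1, 6, 7, 39, 103]),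
   (1683, [0, 0, 0, 0, 7, 15, 15, 63]),
   (1735, [0, 0, 0, 0, 3, 19, 51, 63]),
   (1743, [0, 0, 0, 0, 3, 23, 31, 95, 255]),
   (1749, [0, 0, 0, 1, 2, 7, 11, 127]),
   (1945, [0, 0, 0, 0, 1, 23, 31, 127, 255]),
   (1981, [0, 0, 0, 0, 1, 3, 29]),
   (2247, [0, 0, 0, 0, 1, 23, 63, 63, 127]),
   (2288, [0, 0, 0, 0, 1, 6, 46, 111]),
   (2563, [0, 0, 0, 0, 1, 7, 39, 119, 255])]

noncomputable def goodB (PL : List (ℕ × ℕ × ℕ × List ℕ)) : Bool :=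
  @List.rec (ℕ × ℕ × ℕ × List ℕ) (fun _ => Bool) true
    (fun x _ ih => @Bool.rec (fun _ => Bool) false ih
      (Bool.and (testR x.1 x.2.1 x.2.2.1 x.2.2.2)
        (Bool.and (Nat.ble 1 x.1) (Nat.ble x.2.2.1 (9 * x.2.1))))) PL

theorem goodB_sound (PL : List (ℕ × ℕ × ℕ × List ℕ)) (h : goodB PL = true) : GoodPL PL := by
  induction PL with
  | nil => intro x hx; simp at hx
  | cons y PL ih =>
    change @Bool.rec (fun _ => Bool) false (goodB PL) (Bool.and (testR y.1 y.2.1 y.2.2.1 y.2.2.2)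
        (Bool.and (Nat.ble 1 y.1) (Nat.ble y.2.2.1 (9 * y.2.1)))) = true at h
    cases h1 : (Bool.and (testR y.1 y.2.1 y.2.2.1 y.2.2.2)
        (Bool.and (Nat.ble 1 y.1) (Nat.ble y.2.2.1 (9 * y.2.1))))
    · rw [h1] at h; exact absurd h (by simp)
    · rw [h1] at h
      intro x hx
      rcases List.mem_cons.1 hx with rfl | hx
      · rw [Bool.and_eq_true, Bool.and_eq_true] at h1
        exact ⟨Nat.le_of_ble_eq_true h1.2.1, Nat.le_of_ble_eq_true h1.2.2, testR_sound h1.1⟩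
      · exact ih h x hx

noncomputable def extB (XL : List (ℕ × List ℕ)) : Bool :=
  @List.rec (ℕ × List ℕ) (fun _ => Bool) true
    (fun x _ ih => @Bool.rec (fun _ => Bool) false ih (testV x.1 x.2)) XL

noncomputable def emask (XL : List (ℕ × List ℕ)) : ℕ :=
  @List.rec (ℕ × List ℕ) (fun _ => ℕ) 0
    (fun x _ ih => Nat.lor ih (Nat.shiftLeft 1 x.1)) XL

theorem ext_sound (XL : List (ℕ × List ℕ)) (h : extB XL = true) (n : ℕ)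
    (hn : (emask XL).testBit n = true) :
    ∃ (P : Type) (_ : PartialOrder P) (_ : Finite P), Nat.card (P →o Fin 4) = n := by
  induction XL with
  | nil =>
    change (0 : ℕ).testBit n = true at hn
    simp at hn
  | cons y XL ih =>
    change @Bool.rec (fun _ => Bool) false (extB XL) (testV y.1 y.2) = true at h
    change ((emask XL) ||| (1 <<< y.1)).testBit n = true at hn
    cases h1 : testV y.1 y.2
    · rw [h1] at h; exact absurd h (by simp)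
    · rw [h1] at h
      rw [Nat.testBit_lor, Bool.or_eq_true] at hn
      rcases hn with hn | hn
      · exact ih h hn
      · rw [Nat.testBit_shiftLeft, Bool.and_eq_true] at hn
        obtain ⟨h2, h3⟩ := hn
        have h2' : y.1 ≤ n := by simpa using h2
        have h4 : n - y.1 = 0 := by
          by_contra hcon
          have : (1 : ℕ).testBit (n - y.1) = false := by
            apply Nat.testBit_lt_two_pow
            calc 1 < 2 ^ 1 := by norm_num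
              _ ≤ 2 ^ (n - y.1) := Nat.pow_le_pow_right (by norm_num) (by omega)
          rw [this] at h3
          simp at h3
        have h5 : n = y.1 := by omega
        rw [h5]
        exact testV_sound h1

theorem good1 : GoodPL pieces1 := goodB_sound _ (by decide +kernel)

theorem good2 : GoodPL pieces2 := goodB_sound _ (by decide +kernel)

theorem goodX : extB extras = true := by decide +kernel

noncomputable def k1 (G : NL) : Bool :=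
  Nat.beq (Nat.mod (Nat.lor (Nat.lor (vals 96 G 32) (emask extras))
    (Nat.lor Pool.Agent.Helper875.MonoF.bad 3)) (Nat.pow 2 5200)) (Nat.pred (Nat.pow 2 5200))

theorem run1 : iter pieces1 96 k1 32 (NL.cons 1 NL.nil) = true := by decide +kernel

noncomputable def win (G : NL) (t : ℕ) : Bool :=
  @Nat.rec (fun _ => Bool) true
    (fun i ih => @Bool.rec (fun _ => Bool) false ih
      (Nat.beq (Nat.mod (Nat.shiftRight (getN G (Nat.sub 126 (Nat.add 62 i)))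
          (Nat.add (Nat.mul (Nat.add 62 i) 1024) (Nat.mul 2 (Nat.add 62 i))))
          (Nat.pow 2 (Nat.succ (Nat.mul 2 (Nat.add 62 i)))))
        (Nat.pred (Nat.pow 2 (Nat.succ (Nat.mul 2 (Nat.add 62 i))))))) t

noncomputable def k2 (G : NL) : Bool :=
  @Bool.rec (fun _ => Bool) false (win G 28)
    (Nat.beq (Nat.mod (Nat.shiftRight (vals 104 G 126) 5156) (Nat.pow 2 328599))
      (Nat.pred (Nat.pow 2 328599)))

theorem run2 : iter pieces2 104 k2 126 (NL.cons 1 NL.nil) = true := by decide +kernel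

end Pool.Agent.Helper875.MonoP
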