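import Pool.Agent.Helper875.MonoP

/-!
Every number outside the list of exceptions is attained.
-/

set_option maxRecDepth 100000

namespace Pool.Agent.Helper875.MonoQ

open Pool.Agent.Helper875.MonoC Pool.Agent.Helper875.MonoH Pool.Agent.Helper875.MonoI
  Pool.Agent.Helper875.MonoK Pool.Agent.Helper875.MonoP Pool.Agent.Helper875.MonoF

/-- `n` is the number of monotone maps from some finite ordered set to the four element chain -/
def Att (n : ℕ) : Prop :=
  ∃ (P : Type) (_ : PartialOrder P) (_ : Finite P), Nat.card (P →o Fin 4) = n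

theorem testBit_of_mod {x m n : ℕ} (h : Nat.beq (Nat.mod x (Nat.pow 2 m)) (Nat.pred (Nat.pow 2 m))
    = true) (hn : n < m) : x.testBit n = true := by
  have h0 : x % 2 ^ m = 2 ^ m - 1 := Nat.eq_of_beq_eq_true h
  have h1 : (x % 2 ^ m).testBit n = x.testBit n := by
    rw [Nat.testBit_mod_two_pow]; simp [hn]
  rw [← h1, h0, Nat.testBit_two_pow_sub_one]
  simp [hn]

theorem small (n : ℕ) (hn : n < 5200) (h2 : 2 ≤ n) (hbad : bad.testBit n = false) : Att n := by
  obtain ⟨G, hG, hk⟩ := iter_sound good1 k1 32 0 _ (goodNL_init (by norm_num)) run1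
  rw [Nat.zero_add] at hG
  have h := testBit_of_mod hk hn
  change ((vals 96 G 32 ||| emask extras) ||| (bad ||| 3)).testBit n = true at h
  rw [Nat.testBit_lor, Nat.testBit_lor, Nat.testBit_lor, Bool.or_eq_true, Bool.or_eq_true,
    Bool.or_eq_true, hbad] at h
  rcases h with (h | h) | (h | h)
  · exact vals_sound (by norm_num) G 32 hG n h
  · exact ext_sound extras goodX n h
  · exact absurd h (by simp)
  · exfalso
    have : (3 : ℕ).testBit n = false := by
      apply Nat.testBit_lt_two_pow
      calc 3 < 2 ^ 2 := by norm_num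
        _ ≤ 2 ^ n := Nat.pow_le_pow_right (by norm_num) h2
    rw [this] at h
    simp at h

theorem win_sound (G : NL) (t : ℕ) (h : win G t = true) (i : ℕ) (hi : i < t) (b : ℕ)
    (h1 : 2 * (62 + i) ≤ b) (h2 : b ≤ 4 * (62 + i)) :
    (getN G (126 - (62 + i))).testBit ((62 + i) * 1024 + b) = true := by
  induction t with
  | zero => omega
  | succ t ih =>
    change @Bool.rec (fun _ => Bool) false (win G t)
      (Nat.beq (Nat.mod ((getN G (126 - (62 + t))) >>> ((62 + t) * 1024 + 2 * (62 + t)))
          (Nat.pow 2 (2 * (62 + t) + 1)))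
        (Nat.pred (Nat.pow 2 (2 * (62 + t) + 1)))) = true at h
    cases h3 : (Nat.beq (Nat.mod ((getN G (126 - (62 + t))) >>> ((62 + t) * 1024 + 2 * (62 + t)))
          (Nat.pow 2 (2 * (62 + t) + 1)))
        (Nat.pred (Nat.pow 2 (2 * (62 + t) + 1))))
    · rw [h3] at h; exact absurd h (by simp)
    · rw [h3] at h
      by_cases hit : i < t
      · exact ih h hit
      · have hit' : i = t := by omega
        subst hit'
        have h4 := testBit_of_mod h3 (n := b - 2 * (62 + i)) (by omega)
        rw [Nat.testBit_shiftRight] at h4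
        rw [show (62 + i) * 1024 + b = (62 + i) * 1024 + 2 * (62 + i) + (b - 2 * (62 + i)) by omega]
        exact h4

theorem run2' : ∃ G, GoodNL 104 126 G ∧
    Nat.beq (Nat.mod (Nat.shiftRight (vals 104 G 126) 5156) (Nat.pow 2 328599))
      (Nat.pred (Nat.pow 2 328599)) = true ∧ win G 28 = true := by
  obtain ⟨G, hG, hk⟩ := iter_sound good2 k2 126 0 _ (goodNL_init (by norm_num)) run2
  rw [Nat.zero_add] at hG
  refine ⟨G, hG, ?_⟩
  unfold k2 at hk
  cases h3 : (Nat.beq (Nat.mod (Nat.shiftRight (vals 104 G 126) 5156) (Nat.pow 2 328599))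
      (Nat.pred (Nat.pow 2 328599)))
  · rw [h3] at hk; exact absurd hk (by simp)
  · rw [h3] at hk
    exact ⟨rfl, hk⟩

theorem middle (n : ℕ) (h1 : 5156 ≤ n) (h2 : n < 333755) : Att n := by
  obtain ⟨G, hG, hk, -⟩ := run2'
  have h := testBit_of_mod hk (n := n - 5156) (by omega)
  change (vals 104 G 126 >>> 5156).testBit (n - 5156) = true at h
  rw [Nat.testBit_shiftRight, show 5156 + (n - 5156) = n by omega] at h
  exact vals_sound (by norm_num) G 126 hG n h

theorem base (a : ℕ) (h1 : 62 ≤ a) (h2 : a < 90) (b : ℕ) (h3 : 2 * a ≤ b) (h4 : b ≤ 4 * a) :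
    Real a a b := by
  obtain ⟨G, hG, -, hk⟩ := run2'
  have h := win_sound G 28 hk (a - 62) (by omega) b (by omega) (by omega)
  rw [show 62 + (a - 62) = a by omega] at h
  obtain ⟨-, a', b', h5, h6, h7, h8⟩ := hG _ _ h
  have h9 : a' = a := by omega
  subst h9
  have h10 : b' = b := by omega
  subst h10
  rw [show 126 - (126 - a') = a' by omega] at h8
  exact h8

theorem wide (a : ℕ) : 62 ≤ a → ∀ b, 2 * a ≤ b → b ≤ 4 * a → Real a a b := by
  induction a using Nat.strong_induction_on with
  | _ a ih =>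
    intro h1 b h2 h3
    by_cases h4 : a < 90
    · exact base a h1 h4 b h2 h3
    · by_cases h5 : b + 20 ≤ 4 * a
      · have h6 := ih (a - 10) (by omega) (by omega) (b - 20) (by omega) (by omega)
        have h7 : Real 9 10 20 := testR_sound (l := [0, 0, 2, 6, 14]) (by decide +kernel)
        have h8 := h6.add h7
        rw [show a - 10 + 9 = a - 1 by omega, show a - 10 + 10 = a by omega,
          show b - 20 + 20 = b by omega] at h8
        exact Real.mono h8 (by omega)
      · have h6 := ih (a - 28) (by omega) (by omega) (b - 112) (by omega) (by omega)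
        have h7 : Real 15 28 112 := testR_sound (l := [0, 0, 2, 6, 14, 30, 62, 126])
          (by decide +kernel)
        have h8 := h6.add h7
        rw [show a - 28 + 15 = a - 13 by omega, show a - 28 + 28 = a by omega,
          show b - 112 + 112 = b by omega] at h8
        exact Real.mono h8 (by omega)

theorem locate (n : ℕ) (hn : 333754 ≤ n) : ∃ t d : ℕ, 123 ≤ t ∧
    6 * (n + d) = (t + 6) * (t + 5) * (t + 4) ∧ (t + 1) * t ≤ 2 * d ∧ d ≤ (t + 3) * (t + 2) := by
  induction n, hn using Nat.le_induction with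
  | base => exact ⟨123, 15750, by norm_num, by norm_num, by norm_num, by norm_num⟩
  | succ n _ ih =>
    obtain ⟨t, d, h1, h2, h3, h4⟩ := ih
    by_cases h5 : (t + 1) * t + 2 ≤ 2 * d
    · exact ⟨t, d - 1, h1, by omega, by omega, by omega⟩
    · obtain ⟨m, hm⟩ : ∃ m, (t + 6) * (t + 5) = m + m :=
        (Nat.even_mul_succ_self (t + 5)).elim (fun m hm => ⟨m, by rw [← hm]; ring⟩)
      refine ⟨t + 1, d + m - 1, by omega, ?_, ?_, ?_⟩
      · have h6 : (t + 1 + 6) * (t + 1 + 5) * (t + 1 + 4)
            = (t + 6) * (t + 5) * (t + 4) + 3 * ((t + 6) * (t + 5)) := by ring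
        rw [h6, ← h2, hm]
        have : 1 ≤ m := by nlinarith
        omega
      · have h7 : (t + 1 + 1) * (t + 1) + 2 ≤ 2 * d + (t + 6) * (t + 5) := by nlinarith
        omega
      · have h7 : d + m ≤ (t + 1 + 3) * (t + 1 + 2) + 1 := by nlinarith
        omega

theorem large (n : ℕ) (hn : 333754 ≤ n) : Att n := by
  obtain ⟨t, d, h1, h2, h3, h4⟩ := locate n hn
  obtain ⟨q, hq1, hq2⟩ : ∃ q, (t + 2) * q ≤ d + t + 1 ∧ d ≤ (t + 2) * q := by
    refine ⟨(d + t + 1) / (t + 2), ?_, ?_⟩
    · exact Nat.mul_div_le _ _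
    · have := Nat.lt_mul_div_succ (d + t + 1) (show 0 < t + 2 by omega)
      rw [Nat.mul_succ] at this
      omega
  have hq3 : q ≤ t + 3 := by
    by_contra hcon
    have : t + 4 ≤ q := by omega
    nlinarith
  have hq4 : t ≤ 2 * q := by
    by_contra hcon
    have : 2 * q + 1 ≤ t := by omega
    nlinarith
  have hq5 : 62 ≤ q := by omega
  have hq6 : t * q ≤ d := by
    by_cases h5 : t + 1 ≤ 2 * q
    · nlinarith
    · have : t = 2 * q := by omega
      subst this
      nlinarith
  have h6 : Real q q ((t + 4) * q - d) := by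
    apply wide q hq5
    · apply Nat.le_sub_of_add_le
      nlinarith
    · rw [Nat.sub_le_iff_le_add]
      nlinarith
  have h7 : Real (t + 3) q ((t + 4) * q - d) := Real.mono h6 hq3
  apply Real.value h7
  have h8 : d ≤ (t + 4) * q := by nlinarith
  have h9 : 6 * n + 6 * d = (t + 3 + 3) * (t + 3 + 2) * (t + 3 + 1) := by
    rw [← Nat.mul_add, h2]
  have h10 : (t + 4) * q = q * (t + 3 + 1) := by ring
  rw [← h9, ← h10]
  omega

theorem exists_of (n : ℕ) (h2 : 2 ≤ n) (hbad : bad.testBit n = false) : Att n := by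
  by_cases h3 : n < 5200
  · exact small n h3 h2 hbad
  · by_cases h4 : n < 333755
    · exact middle n (by omega) h4
    · exact large n (by omega)

end Pool.Agent.Helper875.MonoQ
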